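import Pool.Agent.H604.VM.Stm

/-!
# The sums over the residue classes (task CLS)
-/

set_option autoImplicit false

namespace Pool.Agent.H604.VM

open Polynomial Finset
open scoped Classical
open Pool.Agent.H694.Typ (Mn mem_Mn)
open Pool.Agent.H985.Cor (Bx mem_Bx card_Bx)

/-- the bijection `u ↦ f + M u` -/
theorem cls_bij {K : Type} [Field K] [Fintype K] {n : ℕ} {M f : K[X]} (hM : M.Monic)
    (hd : M.natDegree ≤ n) (hf : f ∈ Mn K n) (F : K[X] → ℝ) :
    ∑ u ∈ Bx K (n - M.natDegree), F (f + M * u) =
      ∑ g ∈ (Mn K n).filter (fun g => M ∣ g - f), F g := by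
  have hM0 : M ≠ 0 := hM.ne_zero
  rw [mem_Mn] at hf
  have hdf : f.degree = (n : WithBot ℕ) := by rw [degree_eq_natDegree hf.1.ne_zero, hf.2]
  have hdM : M.degree = (M.natDegree : WithBot ℕ) := degree_eq_natDegree hM0
  refine Finset.sum_bij (fun u _ => f + M * u) ?_ ?_ ?_ ?_
  · intro u hu
    rw [mem_Bx] at hu
    have hlt : (M * u).degree < f.degree := by
      rw [hdf, degree_mul, hdM]
      by_cases h : u = 0
      · rw [h, degree_zero, WithBot.add_bot]
        exact WithBot.bot_lt_coe _
      · rw [degree_eq_natDegree h] at hu ⊢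
        have h1 : u.natDegree < n - M.natDegree := by exact_mod_cast hu
        have h2 : M.natDegree + u.natDegree < n := by omega
        exact_mod_cast h2
    rw [Finset.mem_filter, mem_Mn]
    refine ⟨⟨hf.1.add_of_left hlt, ?_⟩, ⟨u, by ring⟩⟩
    rw [natDegree_add_eq_left_of_degree_lt hlt, hf.2]
  · intro u _ u' _ h
    exact mul_left_cancel₀ hM0 (add_left_cancel h)
  · intro g hg
    rw [Finset.mem_filter, mem_Mn] at hg
    obtain ⟨⟨hg1, hg2⟩, u, hu⟩ := hg
    refine ⟨u, ?_, by rw [← hu]; ring⟩
    rw [mem_Bx]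
    have hdg : g.degree = (n : WithBot ℕ) := by rw [degree_eq_natDegree hg1.ne_zero, hg2]
    have hlt : (g - f).degree < g.degree :=
      degree_sub_lt (hdg.trans hdf.symm) hg1.ne_zero
        (by rw [hg1.leadingCoeff, hf.1.leadingCoeff])
    rw [hu, degree_mul, hdM, hdg] at hlt
    by_cases h : u = 0
    · rw [h, degree_zero]
      exact WithBot.bot_lt_coe _
    · rw [degree_eq_natDegree h] at hlt ⊢
      have h1 : M.natDegree + u.natDegree < n := by exact_mod_cast hlt
      have h2 : u.natDegree < n - M.natDegree := by omega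
      exact_mod_cast h2
  · intro u _
    rfl

theorem cls_mod {K : Type} [Field K] (M f : K[X]) : M ∣ f - f %ₘ M :=
  ⟨f /ₘ M, by
    have h := modByMonic_add_div f M
    linear_combination -h⟩

theorem cls_gen (K : Type) [Field K] [Fintype K] (n : ℕ) (M : K[X]) (a : K[X] → ℝ) {V : Type}
    [CommRing V] (G : ℝ → V) (hM : M.Monic) (hd : M.natDegree ≤ n) :
    (Fintype.card K : V) ^ (n - M.natDegree) *
      ∑ A ∈ (Bx K M.natDegree).filter (fun A => IsCoprime A M),
        G (∑ f ∈ (Mn K n).filter (fun f => M ∣ f - A), a f) =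
    ∑ f ∈ (Mn K n).filter (fun f => IsCoprime f M),
      G (∑ u ∈ Bx K (n - M.natDegree), a (f + M * u)) := by
  have hM0 : M ≠ 0 := hM.ne_zero
  have hdM : M.degree = (M.natDegree : WithBot ℕ) := degree_eq_natDegree hM0
  -- the inner sum on the right
  have hin : ∀ f ∈ (Mn K n).filter (fun f => IsCoprime f M),
      G (∑ u ∈ Bx K (n - M.natDegree), a (f + M * u)) =
        G (∑ g ∈ (Mn K n).filter (fun g => M ∣ g - f %ₘ M), a g) := by
    intro f hf
    rw [cls_bij hM hd (Finset.mem_filter.1 hf).1 a]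
    have hc : (Mn K n).filter (fun g => M ∣ g - f) =
        (Mn K n).filter (fun g => M ∣ g - f %ₘ M) := by
      refine Finset.filter_congr fun g _ => ?_
      have h1 := cls_mod M f
      constructor
      · intro h
        have := dvd_add h h1
        rwa [sub_add_sub_cancel] at this
      · intro h
        have := dvd_sub h h1
        rwa [sub_sub_sub_cancel_right] at this
    rw [hc]
  rw [Finset.sum_congr rfl hin]
  -- fibres
  have hmap : ∀ f ∈ (Mn K n).filter (fun f => IsCoprime f M),
      f %ₘ M ∈ (Bx K M.natDegree).filter (fun A => IsCoprime A M) := by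
    intro f hf
    rw [Finset.mem_filter, mem_Bx]
    refine ⟨by rw [← hdM]; exact degree_modByMonic_lt f hM, ?_⟩
    obtain ⟨w, hw⟩ := cls_mod M f
    have h1 : f %ₘ M = f + M * (-w) := by linear_combination -hw
    rw [h1]
    exact (Finset.mem_filter.1 hf).2.add_mul_left_left (-w)
  rw [← Finset.sum_fiberwise_of_maps_to hmap, Finset.mul_sum]
  refine Finset.sum_congr rfl fun A hA => ?_
  rw [Finset.mem_filter, mem_Bx] at hA
  obtain ⟨hA1, hA2⟩ := hA
  -- all the terms of the fibre are equal
  have hterm : ∀ f ∈ ((Mn K n).filter (fun f => IsCoprime f M)).filter (fun f => f %ₘ M = A),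
      G (∑ g ∈ (Mn K n).filter (fun g => M ∣ g - f %ₘ M), a g) =
        G (∑ g ∈ (Mn K n).filter (fun g => M ∣ g - A), a g) := by
    intro f hf
    rw [(Finset.mem_filter.1 hf).2]
  rw [Finset.sum_congr rfl hterm, Finset.sum_const, nsmul_eq_mul]
  congr 1
  -- the number of elements of the fibre
  have hdeg : A.degree < (M * X ^ (n - M.natDegree)).degree := by
    rw [degree_mul, hdM, degree_X_pow]
    have h2 : M.natDegree ≤ M.natDegree + (n - M.natDegree) := by omega
    refine hA1.trans_le ?_
    exact_mod_cast h2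
  have hmon : (M * X ^ (n - M.natDegree)).Monic := hM.mul (monic_X_pow _)
  have hf0 : M * X ^ (n - M.natDegree) + A ∈ Mn K n := by
    rw [mem_Mn]
    refine ⟨hmon.add_of_left hdeg, ?_⟩
    rw [natDegree_add_eq_left_of_degree_lt hdeg, hM.natDegree_mul (monic_X_pow _),
      natDegree_X_pow]
    omega
  have hfib : ((Mn K n).filter (fun f => IsCoprime f M)).filter (fun f => f %ₘ M = A) =
      (Mn K n).filter (fun g => M ∣ g - (M * X ^ (n - M.natDegree) + A)) := by
    ext g
    simp only [Finset.mem_filter]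
    have hmodA : A %ₘ M = A := (modByMonic_eq_self_iff hM).2 (by rw [hdM]; exact hA1)
    constructor
    · rintro ⟨⟨h1, -⟩, h2⟩
      refine ⟨h1, ?_⟩
      obtain ⟨w, hw⟩ := cls_mod M g
      rw [h2] at hw
      exact ⟨w - X ^ (n - M.natDegree), by linear_combination hw⟩
    · rintro ⟨h1, w, hw⟩
      have h3 : g = A + M * (X ^ (n - M.natDegree) + w) := by linear_combination hw
      refine ⟨⟨h1, ?_⟩, ?_⟩
      · rw [h3]
        exact hA2.add_mul_left_left _
      · rw [h3, add_modByMonic, hmodA, (modByMonic_eq_zero_iff_dvd hM).2 (dvd_mul_right _ _),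
          add_zero]
  have hcard := cls_bij hM hd hf0 (fun _ => (1 : ℝ))
  rw [Finset.sum_const, Finset.sum_const, card_Bx, nsmul_eq_mul, nsmul_eq_mul, mul_one,
    mul_one] at hcard
  have hcard' : (Fintype.card K ^ (n - M.natDegree) : ℕ) =
      ((Mn K n).filter (fun g => M ∣ g - (M * X ^ (n - M.natDegree) + A))).card := by
    exact_mod_cast hcard
  rw [hfib, ← hcard', Nat.cast_pow]

theorem cls : S_cls := by
  intro K _ _ n M a j hM hd
  exact cls_gen K n M a (fun y => y ^ j) hM hd

end Pool.Agent.H604.VM
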