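import Pool.Agent.H604.VM.Stm

/-!
# Task COR: correlations of the Liouville function over the `f` prime to `M` (helper268, for
helper604)

`1_(f, M) = 1` is `∑ (-1) ^ |T|` over the sets `T` of monic prime divisors of `M` whose product `D`
divides `f`; `f = D g`, and the shifts become `M / D` times the old ones.  The correlations of the
Liouville function (`chowU_lio`) bound the part of each `D` of degree at most `n / 2`.
-/

set_option autoImplicit false
set_option linter.unusedSectionVars false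

namespace Pool.Agent.H604.VM

open Polynomial Finset
open scoped Classical

namespace CorL

open Pool.Agent.H985.KP (PA)
open Pool.Agent.H694.Typ (Mn mem_Mn card_Mn q_ge)
open Pool.Agent.H985.KP.Cnt (finite_PA)

variable {K : Type} [Field K]

/-- the indicator of the `f` prime to `M` -/
lemma sieve {M : K[X]} (hM : M ≠ 0) (f : K[X]) :
    (if IsCoprime f M then (1 : ℝ) else 0) =
      ∑ T ∈ (finite_PA hM).toFinset.powerset,
        (-1 : ℝ) ^ T.card * (if ∏ P ∈ T, P ∣ f then 1 else 0) := by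
  have h1 : ∀ T ∈ (finite_PA hM).toFinset.powerset,
      (-1 : ℝ) ^ T.card * (if ∏ P ∈ T, P ∣ f then 1 else 0) =
        ∏ P ∈ T, (-(if P ∣ f then (1 : ℝ) else 0)) := by
    intro T hT
    rw [mem_powerset] at hT
    rw [Finset.prod_neg]
    congr 1
    by_cases h : ∀ P ∈ T, P ∣ f
    · rw [if_pos (Pool.Agent.H985.KP.Cnt.prod_dvd (h := M) (fun P hP => by
        have := hT hP
        rwa [Set.Finite.mem_toFinset] at this) h)]
      rw [Finset.prod_eq_one]
      intro P hP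
      rw [if_pos (h P hP)]
    · push Not at h
      obtain ⟨P, hP, hPf⟩ := h
      have hd : P ∣ ∏ Q ∈ T, Q := Finset.dvd_prod_of_mem (fun Q : K[X] => Q) hP
      have hn : ¬ ∏ Q ∈ T, Q ∣ f := fun h => hPf (hd.trans h)
      rw [if_neg hn]
      symm
      exact Finset.prod_eq_zero hP (by rw [if_neg hPf])
  rw [Finset.sum_congr rfl h1, ← Finset.prod_one_add]
  by_cases hc : IsCoprime f M
  · rw [if_pos hc]
    symm
    apply Finset.prod_eq_one
    intro P hP
    rw [Set.Finite.mem_toFinset] at hP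
    rw [if_neg (fun h => hP.2.1.not_isUnit (hc.isUnit_of_dvd' h hP.2.2))]
    ring
  · rw [if_neg hc]
    symm
    have h2 : ∃ z : K[X], Irreducible z ∧ z ∣ f ∧ z ∣ M := by
      by_contra hcon
      exact hc (isCoprime_of_irreducible_dvd (fun h => hM h.2)
        fun z hz hzf hzM => hcon ⟨z, hz, hzf, hzM⟩)
    obtain ⟨z, hz, hzf, hzM⟩ := h2
    have hass := normalize_associated z
    apply Finset.prod_eq_zero (i := normalize z)
    · rw [Set.Finite.mem_toFinset]
      exact ⟨monic_normalize hz.ne_zero, hass.symm.irreducible hz, hass.dvd.trans hzM⟩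
    · rw [if_pos (hass.dvd.trans hzf)]
      ring

variable [Fintype K]

/-- the multiples of `D` -/
lemma tr {l : K[X] → ℝ} (hl : ∀ F G, l (F * G) = l F * l G) {n : ℕ} {D M' : K[X]}
    (hD : D.Monic) (hM' : M' ≠ 0) (hn : D.natDegree ≤ n) (A : Finset K[X]) :
    ∑ f ∈ (Mn K n).filter (fun f => D ∣ f), ∏ u ∈ A, l (f + D * M' * u) =
      (l D) ^ A.card *
        ∑ g ∈ Mn K (n - D.natDegree), ∏ v ∈ A.image (fun u => M' * u), l (g + v) := by
  rw [Finset.mul_sum]
  symm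
  refine Finset.sum_bij (fun g _ => D * g) ?_ ?_ ?_ ?_
  · intro g hg
    rw [mem_Mn] at hg
    rw [Finset.mem_filter, mem_Mn]
    refine ⟨⟨hD.mul hg.1, ?_⟩, dvd_mul_right _ _⟩
    rw [hD.natDegree_mul hg.1, hg.2]
    omega
  · intro g _ g' _ h
    exact mul_left_cancel₀ hD.ne_zero h
  · intro f hf
    rw [Finset.mem_filter, mem_Mn] at hf
    obtain ⟨⟨hf1, hf2⟩, f', hff⟩ := hf
    have h1 : f'.Monic := by
      rw [hff] at hf1
      exact hD.of_mul_monic_left hf1
    refine ⟨f', ?_, hff.symm⟩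
    rw [mem_Mn]
    refine ⟨h1, ?_⟩
    rw [hff, hD.natDegree_mul h1] at hf2
    omega
  · intro g _
    rw [Finset.prod_image (fun a _ b _ h => mul_left_cancel₀ hM' h), ← Finset.prod_const,
      ← Finset.prod_mul_distrib]
    apply Finset.prod_congr rfl
    intro u _
    rw [← hl]
    congr 1
    ring

/-- the bound for one divisor -/
lemma one {l : K[X] → ℝ} (hl : ∀ F G, l (F * G) = l F * l G) (ha : ∀ F, |l F| ≤ 1) {c : ℝ}
    (hc : 0 < c) {n₀ J : ℕ}
    (hch : ∀ n : ℕ, n₀ ≤ n → ∀ A : Finset K[X], A.Nonempty → A.card ≤ J →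
      (∀ u ∈ A, u.natDegree < n) →
      |∑ f ∈ Mn K n, ∏ u ∈ A, l (f + u)| ≤ (Fintype.card K : ℝ) ^ ((n : ℝ) - c * n))
    {n : ℕ} (hn : 2 * n₀ + 1 ≤ n) {D M' : K[X]} (hD : D.Monic) (hM' : M'.Monic)
    (hdeg : (D * M').natDegree ≤ n) (A : Finset K[X]) (hA : A.Nonempty) (hAJ : A.card ≤ J)
    (hu : ∀ u ∈ A, u.degree < ((n - (D * M').natDegree : ℕ) : WithBot ℕ)) :
    |∑ f ∈ (Mn K n).filter (fun f => D ∣ f), ∏ u ∈ A, l (f + D * M' * u)| ≤
      (Fintype.card K : ℝ) ^ ((n : ℝ) - min (c / 2) (1 / 2) * n) := by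
  have hq := q_ge (k := K)
  have hdd : (D * M').natDegree = D.natDegree + M'.natDegree := hD.natDegree_mul hM'
  rw [hdd] at hdeg hu
  rw [tr hl hD hM'.ne_zero (by omega) A, abs_mul, abs_pow]
  have h1 : |l D| ^ A.card ≤ 1 := pow_le_one₀ (abs_nonneg _) (ha D)
  have h2 : |∑ g ∈ Mn K (n - D.natDegree), ∏ v ∈ A.image (fun u => M' * u), l (g + v)| ≤
      (Fintype.card K : ℝ) ^ ((n : ℝ) - min (c / 2) (1 / 2) * n) := by
    rcases le_or_gt (2 * D.natDegree) n with h3 | h3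
    · refine (hch (n - D.natDegree) (by omega) _ (hA.image _)
        (card_image_le.trans hAJ) ?_).trans ?_
      · intro v hv
        rw [mem_image] at hv
        obtain ⟨u, hu', rfl⟩ := hv
        by_cases h0 : u = 0
        · rw [h0, mul_zero, natDegree_zero]
          omega
        · have h4 := hu u hu'
          rw [degree_eq_natDegree h0] at h4
          have h5 : u.natDegree < n - (D.natDegree + M'.natDegree) := by exact_mod_cast h4
          rw [natDegree_mul hM'.ne_zero h0]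
          omega
      · apply Real.rpow_le_rpow_of_exponent_le (by linarith)
        rw [Nat.cast_sub (by omega)]
        have h6 : (2 : ℝ) * D.natDegree ≤ n := by exact_mod_cast h3
        have h7 : min (c / 2) (1 / 2) ≤ c / 2 := min_le_left _ _
        have h8 : (0 : ℝ) ≤ n := Nat.cast_nonneg n
        have h9 : (0 : ℝ) ≤ D.natDegree := Nat.cast_nonneg _
        nlinarith [mul_le_mul_of_nonneg_right h7 h8]
    · refine (abs_sum_le_sum_abs _ _).trans ?_
      have h4 : ∀ g ∈ Mn K (n - D.natDegree),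
          |∏ v ∈ A.image (fun u => M' * u), l (g + v)| ≤ 1 := by
        intro g _
        rw [abs_prod]
        exact prod_le_one (fun _ _ => abs_nonneg _) (fun v _ => ha _)
      refine (sum_le_sum h4).trans ?_
      rw [sum_const, card_Mn, nsmul_eq_mul, mul_one, Nat.cast_pow, ← Real.rpow_natCast]
      apply Real.rpow_le_rpow_of_exponent_le (by linarith)
      rw [Nat.cast_sub (by omega)]
      have h6 : (n : ℝ) < 2 * D.natDegree := by exact_mod_cast h3
      have h7 : min (c / 2) (1 / 2) ≤ 1 / 2 := min_le_right _ _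
      have h8 : (0 : ℝ) ≤ n := Nat.cast_nonneg n
      nlinarith [mul_le_mul_of_nonneg_right h7 h8]
  calc |l D| ^ A.card *
        |∑ g ∈ Mn K (n - D.natDegree), ∏ v ∈ A.image (fun u => M' * u), l (g + v)|
      ≤ 1 * (Fintype.card K : ℝ) ^ ((n : ℝ) - min (c / 2) (1 / 2) * n) :=
        mul_le_mul h1 h2 (abs_nonneg _) zero_le_one
    _ = (Fintype.card K : ℝ) ^ ((n : ℝ) - min (c / 2) (1 / 2) * n) := one_mul _

lemma core {l : K[X] → ℝ} (hl : ∀ F G, l (F * G) = l F * l G) (ha : ∀ F, |l F| ≤ 1) {J : ℕ}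
    (hch : ∃ c : ℝ, 0 < c ∧ ∃ n₀ : ℕ, ∀ n : ℕ, n₀ ≤ n → ∀ A : Finset K[X], A.Nonempty →
      A.card ≤ J → (∀ u ∈ A, u.natDegree < n) →
      |∑ f ∈ Mn K n, ∏ u ∈ A, l (f + u)| ≤ (Fintype.card K : ℝ) ^ ((n : ℝ) - c * n))
    (hom : ∀ η : ℝ, 1 < η → ∃ A : ℝ, 1 ≤ A ∧ ∀ h : K[X], h ≠ 0 → ∀ d, h.natDegree ≤ d →
      (2 : ℝ) ^ (PA h).ncard ≤ A * η ^ d) :
    ∃ c : ℝ, 0 < c ∧ ∃ n₀ : ℕ, ∀ n : ℕ, n₀ ≤ n →
    ∀ M : K[X], M.Monic → M.natDegree ≤ n → ∀ A : Finset K[X], A.Nonempty → A.card ≤ J →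
      (∀ u ∈ A, u.degree < ((n - M.natDegree : ℕ) : WithBot ℕ)) →
      |∑ f ∈ (Mn K n).filter (fun f => IsCoprime f M), ∏ u ∈ A, l (f + M * u)| ≤
        (Fintype.card K : ℝ) ^ ((n : ℝ) - c * n) := by
  obtain ⟨c, hc, n₀, hch⟩ := hch
  have hq := q_ge (k := K)
  have hq0 : (0 : ℝ) < Fintype.card K := by linarith
  set q : ℝ := (Fintype.card K : ℝ) with hqdef
  set c₁ := min (c / 2) (1 / 2) with hc₁
  have hc1 : 0 < c₁ := lt_min (by linarith) (by norm_num)
  have hη : 1 < q ^ (c₁ / 4) := Real.one_lt_rpow (by linarith) (by linarith)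
  obtain ⟨A₁, hA1, hA⟩ := hom (q ^ (c₁ / 4)) hη
  obtain ⟨N, hN⟩ := pow_unbounded_of_one_lt A₁ hη
  refine ⟨c₁ / 2, by linarith, max N (2 * n₀ + 1), fun n hn M hM hMn A hAne hAJ hu => ?_⟩
  have hnN : N ≤ n := (le_max_left _ _).trans hn
  have hn0 : 2 * n₀ + 1 ≤ n := (le_max_right _ _).trans hn
  have e1 : ∑ f ∈ (Mn K n).filter (fun f => IsCoprime f M), ∏ u ∈ A, l (f + M * u) =
      ∑ T ∈ (finite_PA hM.ne_zero).toFinset.powerset, (-1 : ℝ) ^ T.card *
        ∑ f ∈ (Mn K n).filter (fun f => ∏ P ∈ T, P ∣ f), ∏ u ∈ A, l (f + M * u) := by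
    rw [Finset.sum_filter]
    have h1 : ∀ f ∈ Mn K n, (if IsCoprime f M then ∏ u ∈ A, l (f + M * u) else 0) =
        ∑ T ∈ (finite_PA hM.ne_zero).toFinset.powerset, (-1 : ℝ) ^ T.card *
          (if ∏ P ∈ T, P ∣ f then ∏ u ∈ A, l (f + M * u) else 0) := by
      intro f _
      have h2 : (if IsCoprime f M then ∏ u ∈ A, l (f + M * u) else 0) =
          (if IsCoprime f M then (1 : ℝ) else 0) * ∏ u ∈ A, l (f + M * u) := by
        split_ifs <;> ring
      rw [h2, sieve hM.ne_zero f, Finset.sum_mul]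
      apply Finset.sum_congr rfl
      intro T _
      split_ifs <;> ring
    rw [Finset.sum_congr rfl h1, Finset.sum_comm]
    apply Finset.sum_congr rfl
    intro T _
    rw [← Finset.mul_sum, Finset.sum_filter]
  rw [e1]
  refine (abs_sum_le_sum_abs _ _).trans ?_
  have h3 : ∀ T ∈ (finite_PA hM.ne_zero).toFinset.powerset, |(-1 : ℝ) ^ T.card *
        ∑ f ∈ (Mn K n).filter (fun f => ∏ P ∈ T, P ∣ f), ∏ u ∈ A, l (f + M * u)| ≤
          q ^ ((n : ℝ) - c₁ * n) := by
    intro T hT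
    rw [mem_powerset] at hT
    have hT' : ∀ P ∈ T, P ∈ PA M := fun P hP => by
      have := hT hP
      rwa [Set.Finite.mem_toFinset] at this
    have hDm : (∏ P ∈ T, P).Monic := monic_prod_of_monic _ _ fun P hP => (hT' P hP).1
    have hDd : ∏ P ∈ T, P ∣ M :=
      Pool.Agent.H985.KP.Cnt.prod_dvd hT' fun P hP => (hT' P hP).2.2
    obtain ⟨M', hM'⟩ := hDd
    have hM'm : M'.Monic := hDm.of_mul_monic_left (hM' ▸ hM)
    rw [abs_mul, abs_pow, abs_neg, abs_one, one_pow, one_mul]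
    have h4 := one hl ha hc hch hn0 hDm hM'm (by rw [← hM']; exact hMn) A hAne hAJ
      (by rw [← hM']; exact hu)
    rw [← hM'] at h4
    exact h4
  refine (sum_le_sum h3).trans ?_
  rw [sum_const, card_powerset, nsmul_eq_mul,
    ← Set.ncard_eq_toFinset_card _ (finite_PA hM.ne_zero)]
  have h4 := hA M hM.ne_zero n hMn
  have h5 : (((2 ^ (PA M).ncard : ℕ)) : ℝ) = (2 : ℝ) ^ (PA M).ncard := by push_cast; rfl
  rw [h5]
  calc (2 : ℝ) ^ (PA M).ncard * q ^ ((n : ℝ) - c₁ * n)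
      ≤ (A₁ * (q ^ (c₁ / 4)) ^ n) * q ^ ((n : ℝ) - c₁ * n) :=
        mul_le_mul_of_nonneg_right h4 (by positivity)
    _ ≤ ((q ^ (c₁ / 4)) ^ n * (q ^ (c₁ / 4)) ^ n) * q ^ ((n : ℝ) - c₁ * n) := by
        apply mul_le_mul_of_nonneg_right _ (by positivity)
        apply mul_le_mul_of_nonneg_right _ (by positivity)
        exact hN.le.trans (pow_le_pow_right₀ hη.le hnN)
    _ = q ^ ((n : ℝ) - c₁ / 2 * n) := by
        rw [← Real.rpow_natCast, ← Real.rpow_mul hq0.le, ← Real.rpow_add hq0,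
          ← Real.rpow_add hq0]
        congr 1
        ring

end CorL

open Pool.Agent.H524.Cw (lio)
open Pool.Agent.H694.Typ (Mn)

theorem cor : S_cor := by
  intro K _ _ _ J
  refine CorL.core (l := fun f : K[X] => (lio f : ℝ)) (J := J) ?_ ?_ ?_ ?_
  · intro F G
    show ((lio (F * G) : ℤ) : ℝ) = (lio F : ℝ) * (lio G : ℝ)
    rw [Pool.Agent.H524.Cw.lio_mul, Int.cast_mul]
  · exact fun F => Pool.Agent.H524.Cw.abs_lio F
  · obtain ⟨c, hc, n₀, h⟩ := Pool.Agent.H985.Gc.chowU_lio K J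
    refine ⟨c, hc, n₀, fun n hn A hA hAJ hu => ?_⟩
    have h1 := h n hn A ∅ hA (Finset.disjoint_empty_right A)
      (by rw [Finset.card_empty, add_zero]; exact hAJ)
      (by rw [Finset.union_empty]; exact hu)
    have h2 : ∀ f ∈ Mn K n, (∏ u ∈ A, (lio (f + u) : ℝ)) * ∏ u ∈ (∅ : Finset K[X]),
        (lio (f + u) : ℝ) ^ 2 = ∏ u ∈ A, (lio (f + u) : ℝ) := fun f _ => by
      rw [Finset.prod_empty, mul_one]
    rw [Finset.sum_congr rfl h2] at h1
    exact h1
  · exact fun η hη => Pool.Agent.H251.SP.BF.omega_bound K 2 (by norm_num) η hη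

end Pool.Agent.H604.VM
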