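import Pool.Agent.H604.VM.Phl

/-!
# VM: the moments (helper604)
-/

set_option autoImplicit false

namespace Pool.Agent.H604.VM

open Polynomial Finset
open scoped Classical
open Pool.Agent.H524.Cw (lio)
open Pool.Agent.H694.Typ (Mn mem_Mn)
open Pool.Agent.H985.Cor (Bx mem_Bx card_Bx)
open Pool.Agent.H604.OD (phi phi_count)

/-- The number of the reduced classes. -/
theorem phi_card {K : Type} [Field K] [Fintype K] {M : K[X]} (hM : M.Monic) :
    phi M = ((((Bx K M.natDegree).filter (fun A => IsCoprime A M)).card : ℕ) : ℝ) := by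
  rw [phi_count hM]
  congr 1
  rw [← Set.ncard_coe_finset]
  congr 1
  ext A
  rw [Set.mem_setOf_eq, Finset.coe_filter, Set.mem_setOf_eq, mem_Bx, degree_eq_natDegree hM.ne_zero]

theorem lio_sq' {K : Type} [Field K] {f : K[X]} (hf : f ≠ 0) : (lio f : ℝ) ^ 2 = 1 := by
  unfold lio
  rw [if_neg hf]
  rcases neg_one_pow_eq_or ℤ (Multiset.card (UniqueFactorizationMonoid.factors f)) with h | h <;>
    rw [h] <;> simp

theorem moments (h1 : S_walk) (h2 : S_cor) (h3 : S_cls) (K : Type) [Field K] [Fintype K]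
    [CharP K 2] (J : ℕ) :
    ∃ c : ℝ, 0 < c ∧ ∃ n₀ : ℕ, ∀ n : ℕ, n₀ ≤ n → ∀ M : K[X], M.Monic →
      (1 - c) * n ≤ M.natDegree → M.natDegree ≤ n → ∀ j : ℕ, j ≤ J →
      |(∑ A ∈ (Bx K M.natDegree).filter (fun A => IsCoprime A M),
          (∑ f ∈ (Mn K n).filter (fun f => M ∣ f - A), (lio f : ℝ)) ^ j) / phi M -
        wm (Fintype.card K ^ (n - M.natDegree)) j| ≤ (Fintype.card K : ℝ) ^ (-(c * n)) := by
  have hq1 : (2 : ℝ) ≤ Fintype.card K := by exact_mod_cast (Fintype.one_lt_card (α := K))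
  have hq1' : (1 : ℝ) < Fintype.card K := by linarith
  have hq0 : (0 : ℝ) < Fintype.card K := by linarith
  obtain ⟨c, hc, n₁, hcor⟩ := h2 K J
  set c₁ : ℝ := min c 1 with hc₁
  have hc₁0 : 0 < c₁ := lt_min hc one_pos
  have hc₁c : c₁ ≤ c := min_le_left _ _
  have hc₁1 : c₁ ≤ 1 := min_le_right _ _
  set κ : ℝ := c₁ / (4 * (J + 1)) with hκ
  have hJ0 : (0 : ℝ) ≤ J := Nat.cast_nonneg _
  have hκ0 : 0 < κ := by positivity
  have hκJ : (J + 1) * κ = c₁ / 4 := by
    rw [hκ]; field_simp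
  obtain ⟨η, hηdef⟩ : ∃ η : ℝ, η = (Fintype.card K : ℝ) ^ (c₁ / 4) := ⟨_, rfl⟩
  have hη : 1 < η := by
    rw [hηdef]
    exact Real.one_lt_rpow hq1' (by positivity)
  obtain ⟨A₀, hA₀, hphi⟩ := phi_low K η hη
  -- n large: A₀ ≤ q ^ (c₁ n / 4)
  obtain ⟨n₂, hn₂⟩ : ∃ n₂ : ℕ, ∀ n : ℕ, n₂ ≤ n → A₀ ≤ η ^ n := by
    obtain ⟨n₂, h⟩ := pow_unbounded_of_one_lt A₀ hη
    exact ⟨n₂, fun n hn => h.le.trans (pow_le_pow_right₀ hη.le hn)⟩
  refine ⟨κ, hκ0, max n₁ n₂, fun n hn M hM hMl hMn j hj => ?_⟩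
  have hn0 : (0 : ℝ) ≤ n := Nat.cast_nonneg _
  obtain ⟨d, hd⟩ : ∃ d, d = M.natDegree := ⟨_, rfl⟩
  obtain ⟨m, hm⟩ : ∃ m, m = n - M.natDegree := ⟨_, rfl⟩
  have hmd : (m : ℝ) + d = n := by
    rw [hm, hd]
    have : n - M.natDegree + M.natDegree = n := Nat.sub_add_cancel hMn
    exact_mod_cast this
  have hmκ : (m : ℝ) ≤ κ * n := by
    rw [← hd] at hMl
    nlinarith
  have hcls := h3 K n M (fun f => (lio f : ℝ)) j hM hMn
  have hcls0 := h3 K n M (fun f => (lio f : ℝ)) 0 hM hMn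
  simp only [pow_zero] at hcls0
  rw [Finset.sum_const, Finset.sum_const, nsmul_eq_mul, nsmul_eq_mul, mul_one, mul_one] at hcls0
  rw [← hm] at hcls hcls0 ⊢
  set T : ℝ := ∑ A ∈ (Bx K M.natDegree).filter (fun A => IsCoprime A M),
    (∑ f ∈ (Mn K n).filter (fun f => M ∣ f - A), (lio f : ℝ)) ^ j with hT
  obtain ⟨N, hN0, hN1, hN2, hN3⟩ := h1 K[X] (Bx K m) j
  rw [card_Bx] at hN2
  -- the sum of the coefficients
  have hNsum : ∑ A ∈ (Bx K m).powerset, N A = ((Fintype.card K : ℝ) ^ m) ^ j := by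
    have := hN3 (fun _ => 1) (fun _ _ => one_pow 2)
    simp only [Finset.prod_const_one, mul_one, Finset.sum_const, nsmul_eq_mul, card_Bx] at this
    push_cast at this
    exact this.symm
  have hlio : ∀ f ∈ (Mn K n).filter (fun f => IsCoprime f M), ∀ u ∈ Bx K m,
      (lio (f + M * u) : ℝ) ^ 2 = 1 := by
    intro f hf u hu
    refine lio_sq' ?_
    intro h0
    rw [Finset.mem_filter, mem_Mn] at hf
    rw [mem_Bx] at hu
    have h5 : (M * u).degree < f.degree := by
      rw [degree_eq_natDegree hf.1.1.ne_zero, hf.1.2, degree_mul,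
        degree_eq_natDegree hM.ne_zero]
      by_cases hu0 : u = 0
      · rw [hu0, degree_zero, WithBot.add_bot]
        exact WithBot.bot_lt_coe _
      · rw [degree_eq_natDegree hu0] at hu ⊢
        have : u.natDegree < m := by exact_mod_cast hu
        have h6 : M.natDegree + u.natDegree < n := by omega
        exact_mod_cast h6
    have h7 := degree_add_eq_left_of_degree_lt h5
    rw [h0, degree_zero] at h7
    exact hf.1.1.ne_zero (degree_eq_bot.1 h7.symm)
  have hexp : ∑ f ∈ (Mn K n).filter (fun f => IsCoprime f M),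
      (∑ u ∈ Bx K m, (lio (f + M * u) : ℝ)) ^ j =
      ∑ B ∈ (Bx K m).powerset, N B * ∑ f ∈ (Mn K n).filter (fun f => IsCoprime f M),
        ∏ u ∈ B, (lio (f + M * u) : ℝ) := by
    rw [Finset.sum_congr rfl fun f hf => hN3 (fun u => (lio (f + M * u) : ℝ)) (hlio f hf),
      Finset.sum_comm]
    exact Finset.sum_congr rfl fun B _ => by rw [Finset.mul_sum]
  rw [hexp] at hcls
  -- the error term
  have herr : |∑ B ∈ (Bx K m).powerset, N B * ∑ f ∈ (Mn K n).filter (fun f => IsCoprime f M),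
        ∏ u ∈ B, (lio (f + M * u) : ℝ) -
      wm (Fintype.card K ^ m) j * (((Mn K n).filter (fun f => IsCoprime f M)).card : ℝ)| ≤
      ((Fintype.card K : ℝ) ^ m) ^ j * (Fintype.card K : ℝ) ^ ((n : ℝ) - c * n) := by
    have hmem : (∅ : Finset K[X]) ∈ (Bx K m).powerset := Finset.empty_mem_powerset _
    rw [← Finset.add_sum_erase _ _ hmem, hN2]
    simp only [Finset.prod_empty, Finset.sum_const, nsmul_eq_mul, mul_one]
    rw [add_sub_cancel_left]
    refine (Finset.abs_sum_le_sum_abs _ _).trans ?_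
    rw [← hNsum, Finset.sum_mul]
    have hqn : (0 : ℝ) ≤ (Fintype.card K : ℝ) ^ ((n : ℝ) - c * n) := by positivity
    refine (Finset.sum_le_sum fun B hB => ?_).trans (Finset.sum_le_sum_of_subset_of_nonneg
      (Finset.erase_subset ∅ _) fun B _ _ => mul_nonneg (hN0 B) hqn)
    rw [abs_mul, abs_of_nonneg (hN0 B)]
    by_cases hNB : N B = 0
    · rw [hNB, zero_mul, zero_mul]
    · refine mul_le_mul_of_nonneg_left ?_ (hN0 B)
      obtain ⟨g1, g2⟩ := hN1 B hNB
      refine hcor n ((le_max_left _ _).trans hn) M hM hMn B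
        (Finset.nonempty_iff_ne_empty.2 (Finset.ne_of_mem_erase hB)) (g2.trans hj) fun u hu => ?_
      rw [← hm]
      exact mem_Bx.1 (g1 hu)
  have hphic : phi M = ((((Bx K M.natDegree).filter (fun A => IsCoprime A M)).card : ℕ) : ℝ) :=
    phi_card hM
  rw [← hphic] at hcls0
  rw [← hcls0, ← hcls] at herr
  -- divide
  have hphi1 := hphi M n hM hMn
  rw [← hd] at hphi1
  have hηn : η ^ n = (Fintype.card K : ℝ) ^ (c₁ / 4 * n) := by
    rw [hηdef, ← Real.rpow_natCast, ← Real.rpow_mul hq0.le]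
  have hηn0 : (0 : ℝ) < η ^ n := by positivity
  have hphi0 : 0 < phi M := by
    by_contra hcon
    push Not at hcon
    have h8 : (0 : ℝ) < (Fintype.card K : ℝ) ^ d := by positivity
    have h9 : A₀ * η ^ n * phi M ≤ 0 := mul_nonpos_of_nonneg_of_nonpos (by positivity) hcon
    linarith
  have hqm : (0 : ℝ) < (Fintype.card K : ℝ) ^ m := by positivity
  have e1 : T / phi M - wm (Fintype.card K ^ m) j =
      ((Fintype.card K : ℝ) ^ m * T - wm (Fintype.card K ^ m) j *
        ((Fintype.card K : ℝ) ^ m * phi M)) / ((Fintype.card K : ℝ) ^ m * phi M) := by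
    field_simp
  rw [e1, abs_div, abs_of_pos (mul_pos hqm hphi0), div_le_iff₀ (mul_pos hqm hphi0)]
  refine herr.trans ?_
  -- lower bound of the denominator
  have hden : (Fintype.card K : ℝ) ^ ((n : ℝ) - c₁ / 2 * n) ≤
      (Fintype.card K : ℝ) ^ m * phi M := by
    have h10 : A₀ * η ^ n ≤ (Fintype.card K : ℝ) ^ (c₁ / 2 * n) := by
      calc A₀ * η ^ n ≤ η ^ n * η ^ n :=
            mul_le_mul_of_nonneg_right (hn₂ n ((le_max_right _ _).trans hn)) hηn0.le
        _ = (Fintype.card K : ℝ) ^ (c₁ / 2 * n) := by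
            rw [hηn, ← Real.rpow_add hq0]
            congr 1
            ring
    have h11 : (Fintype.card K : ℝ) ^ d ≤ (Fintype.card K : ℝ) ^ (c₁ / 2 * n) * phi M :=
      hphi1.trans (mul_le_mul_of_nonneg_right h10 hphi0.le)
    have h12 : (Fintype.card K : ℝ) ^ (n : ℝ) ≤
        (Fintype.card K : ℝ) ^ (c₁ / 2 * n) * ((Fintype.card K : ℝ) ^ m * phi M) := by
      calc (Fintype.card K : ℝ) ^ (n : ℝ) = (Fintype.card K : ℝ) ^ m * (Fintype.card K : ℝ) ^ d := by
            rw [← Real.rpow_natCast, ← Real.rpow_natCast, ← Real.rpow_add hq0, hmd]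
        _ ≤ (Fintype.card K : ℝ) ^ m * ((Fintype.card K : ℝ) ^ (c₁ / 2 * n) * phi M) :=
            mul_le_mul_of_nonneg_left h11 hqm.le
        _ = _ := by ring
    rw [Real.rpow_sub hq0, div_le_iff₀ (by positivity)]
    linarith
  refine le_trans ?_ (mul_le_mul_of_nonneg_left hden (by positivity))
  rw [← Real.rpow_natCast, ← Real.rpow_natCast, ← Real.rpow_mul hq0.le, ← Real.rpow_add hq0,
    ← Real.rpow_add hq0]
  refine Real.rpow_le_rpow_of_exponent_le hq1'.le ?_
  have h13 : (m : ℝ) * j ≤ κ * n * J := by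
    have : (j : ℝ) ≤ J := by exact_mod_cast hj
    exact mul_le_mul hmκ this (Nat.cast_nonneg _) (by positivity)
  have h14 : κ * n * J + κ * n = c₁ / 4 * n := by
    rw [← hκJ]; ring
  have h15 : c₁ * n ≤ c * n := mul_le_mul_of_nonneg_right hc₁c hn0
  nlinarith

end Pool.Agent.H604.VM
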