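import Pool.Agent.H604.VM.Final
import Pool.Agent.H604.VM.Cls
import Pool.Agent.H985.Gc.Gau
import Pool.Agent.H985.Gc.Cft

/-!
# VM: the Gaussian law in the reduced classes of a single modulus (helper604)
-/

set_option autoImplicit false

namespace Pool.Agent.H604.VM

open Polynomial Finset Filter Topology
open scoped Classical
open Pool.Agent.H524.Cw (lio)
open Pool.Agent.H694.Typ (Mn mem_Mn card_Mn)
open Pool.Agent.H985.Cor (Bx mem_Bx card_Bx)
open Pool.Agent.H985.Cor.G4 (levy log_cos_bounds exp_diff)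
open Pool.Agent.H604.OD (phi)

/-- A lower bound for the number of the monic `f` of degree `n` prime to `M`. -/
theorem cop_low (K : Type) [Field K] [Fintype K] (c : ℝ) (hc : 0 < c) :
    ∃ n₂ : ℕ, ∀ n : ℕ, n₂ ≤ n → ∀ M : K[X], M.Monic → M.natDegree ≤ n →
      (Fintype.card K : ℝ) ^ ((n : ℝ) - c / 2 * n) ≤
        (((Mn K n).filter (fun f => IsCoprime f M)).card : ℝ) := by
  have hq1 : (2 : ℝ) ≤ Fintype.card K := by exact_mod_cast (Fintype.one_lt_card (α := K))
  have hq1' : (1 : ℝ) < Fintype.card K := by linarith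
  have hq0 : (0 : ℝ) < Fintype.card K := by linarith
  obtain ⟨η, hηdef⟩ : ∃ η : ℝ, η = (Fintype.card K : ℝ) ^ (c / 4) := ⟨_, rfl⟩
  have hη : 1 < η := by
    rw [hηdef]
    exact Real.one_lt_rpow hq1' (by positivity)
  obtain ⟨A₀, hA₀, hphi⟩ := phi_low K η hη
  obtain ⟨n₂, hn₂⟩ : ∃ n₂ : ℕ, ∀ n : ℕ, n₂ ≤ n → A₀ ≤ η ^ n := by
    obtain ⟨n₂, h⟩ := pow_unbounded_of_one_lt A₀ hη
    exact ⟨n₂, fun n hn => h.le.trans (pow_le_pow_right₀ hη.le hn)⟩
  refine ⟨n₂, fun n hn M hM hMn => ?_⟩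
  obtain ⟨d, hd⟩ : ∃ d, d = M.natDegree := ⟨_, rfl⟩
  obtain ⟨m, hm⟩ : ∃ m, m = n - M.natDegree := ⟨_, rfl⟩
  have hmd : (m : ℝ) + d = n := by
    rw [hm, hd]
    have : n - M.natDegree + M.natDegree = n := Nat.sub_add_cancel hMn
    exact_mod_cast this
  have hcls0 := cls K n M (fun _ => 0) 0 hM hMn
  simp only [pow_zero] at hcls0
  rw [Finset.sum_const, Finset.sum_const, nsmul_eq_mul, nsmul_eq_mul, mul_one, mul_one,
    ← phi_card hM, ← hm] at hcls0
  rw [← hcls0]
  have hphi1 := hphi M n hM hMn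
  rw [← hd] at hphi1
  have hηn : η ^ n = (Fintype.card K : ℝ) ^ (c / 4 * n) := by
    rw [hηdef, ← Real.rpow_natCast, ← Real.rpow_mul hq0.le]
  have hηn0 : (0 : ℝ) < η ^ n := by positivity
  have hphi0 : 0 ≤ phi M := by
    rw [phi_card hM]
    exact Nat.cast_nonneg _
  have hqm : (0 : ℝ) < (Fintype.card K : ℝ) ^ m := by positivity
  have h10 : A₀ * η ^ n ≤ (Fintype.card K : ℝ) ^ (c / 2 * n) := by
    calc A₀ * η ^ n ≤ η ^ n * η ^ n :=
          mul_le_mul_of_nonneg_right (hn₂ n hn) hηn0.le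
      _ = (Fintype.card K : ℝ) ^ (c / 2 * n) := by
          rw [hηn, ← Real.rpow_add hq0]
          congr 1
          ring
  have h11 : (Fintype.card K : ℝ) ^ d ≤ (Fintype.card K : ℝ) ^ (c / 2 * n) * phi M :=
    hphi1.trans (mul_le_mul_of_nonneg_right h10 hphi0)
  have h12 : (Fintype.card K : ℝ) ^ (n : ℝ) ≤
      (Fintype.card K : ℝ) ^ (c / 2 * n) * ((Fintype.card K : ℝ) ^ m * phi M) := by
    calc (Fintype.card K : ℝ) ^ (n : ℝ) = (Fintype.card K : ℝ) ^ m * (Fintype.card K : ℝ) ^ d := by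
          rw [← Real.rpow_natCast, ← Real.rpow_natCast, ← Real.rpow_add hq0, hmd]
      _ ≤ (Fintype.card K : ℝ) ^ m * ((Fintype.card K : ℝ) ^ (c / 2 * n) * phi M) :=
          mul_le_mul_of_nonneg_left h11 hqm.le
      _ = _ := by ring
  rw [Real.rpow_sub hq0, div_le_iff₀ (by positivity)]
  linarith

theorem tri_lio' {K : Type} [Field K] (f : K[X]) :
    (lio f : ℝ) = 0 ∨ (lio f : ℝ) = 1 ∨ (lio f : ℝ) = -1 := by
  by_cases h : f = 0
  · left
    rw [h]
    simp [lio]
  · right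
    have := lio_sq' h
    have h2 : ((lio f : ℝ) - 1) * ((lio f : ℝ) + 1) = 0 := by linear_combination this
    rcases mul_eq_zero.1 h2 with h3 | h3
    · left; linarith
    · right; linarith

/-- Nonvanishing of the arguments. -/
theorem arg_ne {K : Type} [Field K] [Fintype K] {n m : ℕ} {M : K[X]} (hM : M.Monic)
    (hm : m = n - M.natDegree) (hMn : M.natDegree ≤ n) :
    ∀ f ∈ (Mn K n).filter (fun f => IsCoprime f M), ∀ u ∈ Bx K m, f + M * u ≠ 0 := by
  intro f hf u hu h0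
  rw [Finset.mem_filter, mem_Mn] at hf
  rw [mem_Bx] at hu
  have h5 : (M * u).degree < f.degree := by
    rw [degree_eq_natDegree hf.1.1.ne_zero, hf.1.2, degree_mul,
      degree_eq_natDegree hM.ne_zero]
    by_cases hu0 : u = 0
    · rw [hu0, degree_zero, WithBot.add_bot]
      exact WithBot.bot_lt_coe _
    · rw [degree_eq_natDegree hu0] at hu ⊢
      have : u.natDegree < m := by exact_mod_cast hu
      have h6 : M.natDegree + u.natDegree < n := by omega
      exact_mod_cast h6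
  have h7 := degree_add_eq_left_of_degree_lt h5
  rw [h0, degree_zero] at h7
  exact hf.1.1.ne_zero (degree_eq_bot.1 h7.symm)

/-- The characteristic function over the `f` prime to `M`. -/
theorem cf_cop (hcor : S_cor) (K : Type) [Field K] [Fintype K] [CharP K 2] (N : ℕ) (hN : 1 ≤ N) :
    ∃ c : ℝ, 0 < c ∧ ∃ n₀ : ℕ, ∀ n : ℕ, n₀ ≤ n → ∀ M : K[X], M.Monic → M.natDegree ≤ n →
      ∀ (m : ℕ) (x : ℝ), m = n - M.natDegree →
      ‖∑ f ∈ (Mn K n).filter (fun f => IsCoprime f M),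
          Complex.exp ((x : ℂ) * ((∑ u ∈ Bx K m, (lio (f + M * u) : ℝ) : ℝ) : ℂ) * Complex.I) -
        ((((Mn K n).filter (fun f => IsCoprime f M)).card * Real.cos x ^ (Fintype.card K ^ m) : ℝ)
          : ℂ)‖ ≤
      (Fintype.card K : ℝ) ^ ((n : ℝ) - c * n) *
          ∑ k ∈ range (2 * N + 1), (|x| * (Fintype.card K : ℝ) ^ m) ^ k / (k.factorial : ℝ) +
        ((Mn K n).filter (fun f => IsCoprime f M)).card *
          (2 * (Real.exp 1 * x ^ 2 * (Fintype.card K : ℝ) ^ m / (2 * N)) ^ N) := by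
  obtain ⟨c, hc, n₀, h⟩ := hcor K (2 * N)
  refine ⟨c, hc, n₀, fun n hn M hM hMn m x hm => ?_⟩
  obtain ⟨Y, hY⟩ : ∃ Y, Y = (Mn K n).filter (fun f => IsCoprime f M) := ⟨_, rfl⟩
  have hne := arg_ne hM hm hMn
  have hcard : Fintype.card {u // u ∈ Bx K m} = Fintype.card K ^ m := by
    rw [Fintype.card_coe, card_Bx]
  have key := Pool.Agent.H985.Gc.Cft.main_abs (ι := {u // u ∈ Bx K m}) Y
    (fun f u => (lio (f + M * (u : K[X])) : ℝ)) (fun f u => tri_lio' _) N hN x
    ((Fintype.card K : ℝ) ^ ((n : ℝ) - c * n)) (Y.card : ℝ) (by positivity) le_rfl ?_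
  · rw [hcard] at key
    have e1 : ∀ f : K[X], ∑ u : {u // u ∈ Bx K m}, (lio (f + M * (u : K[X])) : ℝ) =
        ∑ u ∈ Bx K m, (lio (f + M * u) : ℝ) := fun f =>
      Finset.sum_coe_sort (Bx K m) (fun u => (lio (f + M * u) : ℝ))
    have e2 : ∑ f ∈ Y, ∏ u : {u // u ∈ Bx K m},
        (1 + (Real.cos x - 1) * (lio (f + M * (u : K[X])) : ℝ) ^ 2) =
        Y.card * Real.cos x ^ (Fintype.card K ^ m) := by
      have : ∀ f ∈ Y, ∏ u : {u // u ∈ Bx K m},
          (1 + (Real.cos x - 1) * (lio (f + M * (u : K[X])) : ℝ) ^ 2) =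
          Real.cos x ^ (Fintype.card K ^ m) := by
        intro f hf
        rw [hY] at hf
        have h3 : ∀ u : {u // u ∈ Bx K m},
            (1 + (Real.cos x - 1) * (lio (f + M * (u : K[X])) : ℝ) ^ 2) = Real.cos x := by
          intro u
          rw [lio_sq' (hne f hf u u.2)]
          ring
        rw [Finset.prod_congr rfl fun u _ => h3 u, Finset.prod_const, Finset.card_univ, hcard]
      rw [Finset.sum_congr rfl this, Finset.sum_const, nsmul_eq_mul]
    rw [e2, Finset.sum_congr rfl fun f _ => by rw [e1 f]] at key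
    rw [← hY]
    push_cast at key ⊢
    exact key
  · intro A B hA hAB hcd
    have e3 : ∀ f ∈ Y, (∏ u ∈ A, (lio (f + M * (u : K[X])) : ℝ)) *
        ∏ u ∈ B, (lio (f + M * (u : K[X])) : ℝ) ^ 2 =
        ∏ u ∈ A.map (Function.Embedding.subtype _), (lio (f + M * u) : ℝ) := by
      intro f hf
      rw [hY] at hf
      rw [Finset.prod_eq_one (s := B) fun u _ => lio_sq' (hne f hf u u.2), mul_one,
        Finset.prod_map]
      rfl
    rw [Finset.sum_congr rfl e3, hY]
    refine h n hn M hM hMn _ (hA.map) (by rw [Finset.card_map]; omega) fun u hu => ?_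
    rw [Finset.mem_map] at hu
    obtain ⟨w, -, rfl⟩ := hu
    rw [← hm]
    exact mem_Bx.1 w.2

end Pool.Agent.H604.VM
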