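import Pool.Agent.H604.VM.Gau

/-!
# VM: the Gaussian law in the reduced classes of a single modulus (helper604)
-/

set_option autoImplicit false

namespace Pool.Agent.H604.VM

open Polynomial Finset Filter Topology
open scoped Classical
open Pool.Agent.H524.Cw (lio)
open Pool.Agent.H694.Typ (Mn mem_Mn card_Mn)
open Pool.Agent.H985.Cor (Bx mem_Bx card_Bx)
open Pool.Agent.H985.Cor.G4 (levy log_cos_bounds exp_diff)
open Pool.Agent.H985.Gc.GauN (exists_N)
open Pool.Agent.H604.OD (phi)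

/-- The normal approximation of a power of the cosine. -/
theorem cos_pow (θ H r : ℝ) (k : ℕ) (hk : (k : ℝ) = H) (hH : 0 < H) (hr : r ^ 2 = H) (hr0 : 0 < r)
    (hθ : θ ^ 2 ≤ H) : |Real.cos (θ / r) ^ k - Real.exp (-(θ ^ 2 / 2))| ≤ θ ^ 4 / H := by
  obtain ⟨x, hx⟩ : ∃ x, x = θ / r := ⟨_, rfl⟩
  rw [← hx]
  have hx2 : x ^ 2 * H = θ ^ 2 := by
    rw [hx, div_pow, hr]
    field_simp
  have hx1 : |x| ≤ 1 := by
    rw [hx, abs_div, abs_of_pos hr0, div_le_one hr0]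
    exact abs_le_of_sq_le_sq (by rw [hr]; exact hθ) hr0.le
  obtain ⟨hc0, hl0, hl1, hl2⟩ := log_cos_bounds hx1
  have e1 : Real.cos x ^ k = Real.exp (Real.log (Real.cos x) * H) := by
    rw [← hk, mul_comm, Real.exp_nat_mul, Real.exp_log hc0]
  rw [e1]
  refine (exp_diff (mul_nonpos_of_nonpos_of_nonneg hl0 hH.le)
    (by have := sq_nonneg θ; linarith)).trans ?_
  have e5 : Real.log (Real.cos x) * H - -(θ ^ 2 / 2)
      = (Real.log (Real.cos x) + x ^ 2 / 2) * H := by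
    rw [← hx2]; ring
  rw [e5, abs_mul, abs_of_pos hH]
  refine (mul_le_mul_of_nonneg_right hl2 hH.le).trans (le_of_eq ?_)
  rw [eq_div_iff hH.ne', show θ ^ 4 = (θ ^ 2) ^ 2 by ring, ← hx2]
  ring

theorem sum_fac (θ r H : ℝ) (N : ℕ) (hr : r ^ 2 = H) (hr1 : 1 ≤ r) :
    ∑ k ∈ range (2 * N + 1), (|θ| * r) ^ k / (k.factorial : ℝ) ≤
      (2 * N + 1) * ((1 + |θ|) ^ (2 * N) * H ^ N) := by
  have h1 : ∀ k ∈ range (2 * N + 1), (|θ| * r) ^ k / (k.factorial : ℝ) ≤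
      (1 + |θ|) ^ (2 * N) * H ^ N := by
    intro k hk
    rw [Finset.mem_range] at hk
    have h2 : (1 : ℝ) ≤ (k.factorial : ℝ) := by exact_mod_cast Nat.factorial_pos k
    have h3 : 0 ≤ |θ| * r := by positivity
    have h4 : |θ| * r ≤ (1 + |θ|) * r := mul_le_mul_of_nonneg_right (by linarith) (by linarith)
    have h5 : 1 ≤ (1 + |θ|) * r := by
      have := abs_nonneg θ
      nlinarith
    calc (|θ| * r) ^ k / (k.factorial : ℝ) ≤ (|θ| * r) ^ k := div_le_self (by positivity) h2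
      _ ≤ ((1 + |θ|) * r) ^ k := pow_le_pow_left₀ h3 h4 k
      _ ≤ ((1 + |θ|) * r) ^ (2 * N) := pow_le_pow_right₀ h5 (by omega)
      _ = (1 + |θ|) ^ (2 * N) * H ^ N := by rw [mul_pow, pow_mul r, hr]
  refine (Finset.sum_le_sum h1).trans (le_of_eq ?_)
  rw [Finset.sum_const, Finset.card_range, nsmul_eq_mul]
  push_cast
  ring

theorem dec (W : ℂ) (y : ℕ) (hy : (y : ℂ) ≠ 0) (a b : ℝ) :
    W / (y : ℂ) - ((b : ℝ) : ℂ) =
      (W - (((y : ℝ) * a : ℝ) : ℂ)) / (y : ℂ) + ((a - b : ℝ) : ℂ) := by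
  push_cast
  field_simp
  ring

/-- The characteristic function over the reduced classes. -/
theorem cf_red (hcor : S_cor) (K : Type) [Field K] [Fintype K] [CharP K 2] (θ δ : ℝ)
    (hδ : 0 < δ) :
    ∃ κ : ℝ, 0 < κ ∧ ∃ m₀ : ℕ, ∀ (n m : ℕ) (M : K[X]), M.Monic → M.natDegree ≤ n →
      m = n - M.natDegree → m₀ ≤ m → (m : ℝ) ≤ κ * n →
      ‖(∑ A ∈ (Bx K M.natDegree).filter (fun A => IsCoprime A M),
          Complex.exp ((θ : ℂ) * (((∑ f ∈ (Mn K n).filter (fun f => M ∣ f - A), (lio f : ℝ)) /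
            Real.sqrt ((Fintype.card K : ℝ) ^ m) : ℝ) : ℂ) * Complex.I)) /
          (((Bx K M.natDegree).filter (fun A => IsCoprime A M)).card : ℂ) -
        Complex.exp (-(θ ^ 2 / 2 : ℝ))‖ ≤ δ := by
  have hq1 : (2 : ℝ) ≤ Fintype.card K := by exact_mod_cast (Fintype.one_lt_card (α := K))
  have hq1' : (1 : ℝ) < Fintype.card K := by linarith
  have hq0 : (0 : ℝ) < Fintype.card K := by linarith
  obtain ⟨N, hN, hNδ⟩ := exists_N (Real.exp 1 * θ ^ 2) (δ / 4) (by positivity) (by positivity)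
  obtain ⟨c, hc, n₁, hcf⟩ := cf_cop hcor K N hN
  obtain ⟨n₂, hlow⟩ := cop_low K c hc
  have hNr : (1 : ℝ) ≤ N := by exact_mod_cast hN
  obtain ⟨C, hC⟩ : ∃ C : ℝ, C = (2 * N + 1) * (1 + |θ|) ^ (2 * N) := ⟨_, rfl⟩
  have hC0 : 0 < C := by rw [hC]; positivity
  obtain ⟨κ, hκ⟩ : ∃ κ : ℝ, κ = c / (4 * N) := ⟨_, rfl⟩
  have hκ0 : 0 < κ := by rw [hκ]; positivity
  have hκN : κ * N = c / 4 := by rw [hκ]; field_simp
  -- the power saving
  obtain ⟨n₃, hn₃⟩ : ∃ n₃ : ℕ, ∀ n : ℕ, n₃ ≤ n → C * (Fintype.card K : ℝ) ^ (-(c / 4 * n)) ≤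
      δ / 4 := by
    have h1 : 1 < (Fintype.card K : ℝ) ^ (c / 4) := Real.one_lt_rpow hq1' (by positivity)
    obtain ⟨n₃, h⟩ := pow_unbounded_of_one_lt (4 * C / δ) h1
    refine ⟨n₃, fun n hn => ?_⟩
    have h2 : 4 * C / δ ≤ (Fintype.card K : ℝ) ^ (c / 4 * n) := by
      rw [Real.rpow_mul hq0.le, Real.rpow_natCast]
      exact h.le.trans (pow_le_pow_right₀ h1.le hn)
    rw [Real.rpow_neg hq0.le, ← div_eq_mul_inv, div_le_iff₀ (by positivity)]
    rw [div_le_iff₀ hδ] at h2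
    linarith
  obtain ⟨m₁, hm₁⟩ := exists_nat_ge (κ * max (max n₁ n₂ : ℝ) n₃ + 1)
  obtain ⟨m₂, hm₂⟩ := exists_nat_ge (θ ^ 2 + 4 * θ ^ 4 / δ)
  refine ⟨κ, hκ0, max m₁ m₂, fun n m M hM hMn hm hm0 hmκ => ?_⟩
  have hm1 : (m₁ : ℝ) ≤ m := by exact_mod_cast (le_max_left _ _).trans hm0
  have hm2 : (m₂ : ℝ) ≤ m := by exact_mod_cast (le_max_right _ _).trans hm0
  have hnbig : max (max n₁ n₂ : ℝ) n₃ ≤ n := by
    by_contra hcon
    push Not at hcon
    have := mul_lt_mul_of_pos_left hcon hκ0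
    linarith
  have hn1 : n₁ ≤ n := by
    exact_mod_cast ((le_max_left (n₁ : ℝ) n₂).trans (le_max_left _ _)).trans hnbig
  have hn2 : n₂ ≤ n := by
    exact_mod_cast ((le_max_right (n₁ : ℝ) n₂).trans (le_max_left _ _)).trans hnbig
  have hn3 : n₃ ≤ n := by exact_mod_cast (le_max_right _ _).trans hnbig
  obtain ⟨H, hHdef⟩ : ∃ H : ℝ, H = (Fintype.card K : ℝ) ^ m := ⟨_, rfl⟩
  have hHm : (m : ℝ) + 1 ≤ H := by
    have h1 : m + 1 ≤ Fintype.card K ^ m := by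
      have h2 : m < 2 ^ m := Nat.lt_two_pow_self
      have h3 : 2 ^ m ≤ Fintype.card K ^ m :=
        Nat.pow_le_pow_left (Fintype.one_lt_card (α := K)) _
      omega
    rw [hHdef]
    exact_mod_cast h1
  have hm0' : (0 : ℝ) ≤ m := Nat.cast_nonneg _
  have hH0 : 0 < H := by linarith
  have hθ4 : 0 ≤ 4 * θ ^ 4 / δ := by positivity
  have hθH : θ ^ 2 ≤ H := by linarith
  have hθ4H : θ ^ 4 / H ≤ δ / 4 := by
    have h1 : 4 * θ ^ 4 / δ ≤ H := by
      have := sq_nonneg θ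
      linarith
    rw [div_le_iff₀ hδ] at h1
    rw [div_le_iff₀ hH0]
    linarith
  obtain ⟨r, hrdef⟩ : ∃ r, r = Real.sqrt H := ⟨_, rfl⟩
  have hr0 : 0 < r := by rw [hrdef]; exact Real.sqrt_pos.mpr hH0
  have hr2 : r ^ 2 = H := by rw [hrdef]; exact Real.sq_sqrt hH0.le
  have hr1 : 1 ≤ r := by
    rw [hrdef, Real.one_le_sqrt]
    linarith
  rw [← hHdef, ← hrdef]
  obtain ⟨x, hx⟩ : ∃ x, x = θ / r := ⟨_, rfl⟩
  obtain ⟨Y, hY⟩ : ∃ Y, Y = (Mn K n).filter (fun f => IsCoprime f M) := ⟨_, rfl⟩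
  obtain ⟨R, hR⟩ : ∃ R, R = (Bx K M.natDegree).filter (fun A => IsCoprime A M) := ⟨_, rfl⟩
  have hcl := cls_gen K n M (fun f => (lio f : ℝ)) (V := ℂ)
    (fun y => Complex.exp ((x : ℂ) * (y : ℂ) * Complex.I)) hM hMn
  have hcl0 := cls K n M (fun f => (lio f : ℝ)) 0 hM hMn
  simp only [pow_zero] at hcl0
  rw [Finset.sum_const, Finset.sum_const, nsmul_eq_mul, nsmul_eq_mul, mul_one, mul_one, ← hm,
    ← hY, ← hR] at hcl0
  rw [← hm, ← hY, ← hR] at hcl
  rw [← hR]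
  have hYlow := hlow n hn2 M hM hMn
  rw [← hY] at hYlow
  have hY0 : (0 : ℝ) < Y.card := lt_of_lt_of_le (by positivity) hYlow
  have hqm : (0 : ℝ) < (Fintype.card K : ℝ) ^ m := by positivity
  have hR0 : (0 : ℝ) < R.card := by
    by_contra hcon
    push Not at hcon
    have h1 : (R.card : ℝ) = 0 := le_antisymm hcon (Nat.cast_nonneg _)
    rw [h1, mul_zero] at hcl0
    linarith
  have e1 : ∀ y : ℝ, Complex.exp ((θ : ℂ) * ((y / r : ℝ) : ℂ) * Complex.I) =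
      Complex.exp ((x : ℂ) * (y : ℂ) * Complex.I) := by
    intro y
    congr 2
    rw [hx, ← Complex.ofReal_mul, ← Complex.ofReal_mul]
    congr 1
    ring
  rw [Finset.sum_congr rfl fun A _ => e1 _]
  have hRC : (R.card : ℂ) ≠ 0 := by
    exact_mod_cast hR0.ne'
  have hYC : (Y.card : ℂ) ≠ 0 := by
    exact_mod_cast hY0.ne'
  have hqC : ((Fintype.card K : ℂ)) ^ m ≠ 0 := by
    have : (Fintype.card K : ℂ) ≠ 0 := by exact_mod_cast hq0.ne'
    exact pow_ne_zero _ this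
  have hcl0C : (Fintype.card K : ℂ) ^ m * (R.card : ℂ) = (Y.card : ℂ) := by
    exact_mod_cast hcl0
  have e2 : (∑ A ∈ R, Complex.exp ((x : ℂ) *
      ((∑ f ∈ (Mn K n).filter (fun f => M ∣ f - A), (lio f : ℝ) : ℝ) : ℂ) * Complex.I)) /
      (R.card : ℂ) =
      (∑ f ∈ Y, Complex.exp ((x : ℂ) * ((∑ u ∈ Bx K m, (lio (f + M * u) : ℝ) : ℝ) : ℂ) *
        Complex.I)) / (Y.card : ℂ) := by
    rw [← hcl, ← hcl0C, mul_div_mul_left _ _ hqC]
  rw [e2]
  have hkey := hcf n hn1 M hM hMn m x hm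
  rw [← hY, ← hHdef] at hkey
  have hxH : |x| * H = |θ| * r := by
    rw [hx, abs_div, abs_of_pos hr0, ← hr2]
    field_simp
  have hx2H : x ^ 2 * H = θ ^ 2 := by
    rw [hx, div_pow, hr2]
    field_simp
  have e3 : Real.exp 1 * x ^ 2 * H / (2 * N) = Real.exp 1 * θ ^ 2 / (2 * N) := by
    rw [← hx2H]; ring
  rw [hxH, e3] at hkey
  have hcos := cos_pow θ H r (Fintype.card K ^ m) (by rw [hHdef]; push_cast; rfl) hH0 hr2 hr0 hθH
  rw [← hx] at hcos
  -- decomposition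
  have e4 : (∑ f ∈ Y, Complex.exp ((x : ℂ) * ((∑ u ∈ Bx K m, (lio (f + M * u) : ℝ) : ℝ) : ℂ) *
        Complex.I)) / (Y.card : ℂ) - Complex.exp (-(θ ^ 2 / 2 : ℝ)) =
      (∑ f ∈ Y, Complex.exp ((x : ℂ) * ((∑ u ∈ Bx K m, (lio (f + M * u) : ℝ) : ℝ) : ℂ) *
        Complex.I) - (((Y.card : ℝ) * Real.cos x ^ (Fintype.card K ^ m) : ℝ) : ℂ)) / (Y.card : ℂ) +
      ((Real.cos x ^ (Fintype.card K ^ m) - Real.exp (-(θ ^ 2 / 2)) : ℝ) : ℂ) := by
    rw [← dec _ Y.card hYC, Complex.ofReal_exp, Complex.ofReal_neg]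
  rw [e4]
  refine (norm_add_le _ _).trans ?_
  rw [norm_div, Complex.norm_real, Real.norm_eq_abs, Complex.norm_natCast]
  have h5 : ‖∑ f ∈ Y, Complex.exp ((x : ℂ) * ((∑ u ∈ Bx K m, (lio (f + M * u) : ℝ) : ℝ) : ℂ) *
        Complex.I) - (((Y.card : ℝ) * Real.cos x ^ (Fintype.card K ^ m) : ℝ) : ℂ)‖ / (Y.card : ℝ) ≤
      δ / 4 + δ / 4 := by
    rw [div_le_iff₀ hY0]
    refine hkey.trans ?_
    rw [add_mul]
    refine add_le_add ?_ ?_
    · have h6 := sum_fac θ r H N hr2 hr1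
      have h7 : (Fintype.card K : ℝ) ^ ((n : ℝ) - c * n) * H ^ N * C ≤ δ / 4 * Y.card := by
        have h8 : (Fintype.card K : ℝ) ^ ((n : ℝ) - c * n) * H ^ N ≤
            (Fintype.card K : ℝ) ^ (-(c / 4 * n)) *
              (Fintype.card K : ℝ) ^ ((n : ℝ) - c / 2 * n) := by
          rw [hHdef, ← Real.rpow_natCast, ← Real.rpow_natCast, ← Real.rpow_mul hq0.le,
            ← Real.rpow_add hq0, ← Real.rpow_add hq0]
          refine Real.rpow_le_rpow_of_exponent_le hq1'.le ?_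
          have h9 : (m : ℝ) * N ≤ c / 4 * n := by
            calc (m : ℝ) * N ≤ κ * n * N := mul_le_mul_of_nonneg_right hmκ (by linarith)
              _ = κ * N * n := by ring
              _ = c / 4 * n := by rw [hκN]
          linarith
        calc (Fintype.card K : ℝ) ^ ((n : ℝ) - c * n) * H ^ N * C
            ≤ (Fintype.card K : ℝ) ^ (-(c / 4 * n)) *
              (Fintype.card K : ℝ) ^ ((n : ℝ) - c / 2 * n) * C :=
              mul_le_mul_of_nonneg_right h8 hC0.le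
          _ = (C * (Fintype.card K : ℝ) ^ (-(c / 4 * n))) *
              (Fintype.card K : ℝ) ^ ((n : ℝ) - c / 2 * n) := by ring
          _ ≤ δ / 4 * Y.card :=
              mul_le_mul (hn₃ n hn3) hYlow (by positivity) (by positivity)
      refine (mul_le_mul_of_nonneg_left h6 (by positivity)).trans (le_trans (le_of_eq ?_) h7)
      rw [hC]
      ring
    · rw [mul_comm (δ / 4)]
      exact mul_le_mul_of_nonneg_left hNδ hY0.le
  have h6 := hcos.trans hθ4H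
  linarith

/-- **The Gaussian law.** -/
theorem law (hcor : S_cor) (K : Type) [Field K] [Fintype K] [CharP K 2] (t ε : ℝ) (hε : 0 < ε) :
    ∃ κ : ℝ, 0 < κ ∧ ∃ m₀ : ℕ, ∀ (n m : ℕ) (M : K[X]), M.Monic → M.natDegree ≤ n →
      m = n - M.natDegree → m₀ ≤ m → (m : ℝ) ≤ κ * n →
      |((((Bx K M.natDegree).filter (fun A => IsCoprime A M)).filter (fun A =>
          ∑ f ∈ (Mn K n).filter (fun f => M ∣ f - A), (lio f : ℝ) ≤
            t * Real.sqrt ((Fintype.card K : ℝ) ^ m))).card : ℝ) /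
          (((Bx K M.natDegree).filter (fun A => IsCoprime A M)).card : ℝ) -
        ((ProbabilityTheory.gaussianReal 0 1) (Set.Iic t)).toReal| ≤ ε := by
  by_contra hcon
  push Not at hcon
  have hq0 : (0 : ℝ) < Fintype.card K := by exact_mod_cast Fintype.card_pos
  have hseq : ∀ j : ℕ, ∃ (n m : ℕ) (M : K[X]), M.Monic ∧ M.natDegree ≤ n ∧
      m = n - M.natDegree ∧ j ≤ m ∧ (m : ℝ) ≤ (1 / ((j : ℝ) + 1)) * n ∧
      ε < |((((Bx K M.natDegree).filter (fun A => IsCoprime A M)).filter (fun A =>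
          ∑ f ∈ (Mn K n).filter (fun f => M ∣ f - A), (lio f : ℝ) ≤
            t * Real.sqrt ((Fintype.card K : ℝ) ^ m))).card : ℝ) /
          (((Bx K M.natDegree).filter (fun A => IsCoprime A M)).card : ℝ) -
        ((ProbabilityTheory.gaussianReal 0 1) (Set.Iic t)).toReal| := by
    intro j
    obtain ⟨n, m, M, h1, h2, h3, h4, h5, h6⟩ := hcon (1 / ((j : ℝ) + 1)) (by positivity) j
    exact ⟨n, m, M, h1, h2, h3, h4, h5, h6⟩
  choose n m M hM hMn hm hmj hmn hbad using hseq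
  obtain ⟨n₂, hlow⟩ := cop_low K 1 one_pos
  -- convergence of the characteristic functions
  have hcf : ∀ θ : ℝ, Tendsto (fun j =>
      (∑ A ∈ (Bx K (M j).natDegree).filter (fun A => IsCoprime A (M j)),
          Complex.exp ((θ : ℂ) * (((∑ f ∈ (Mn K (n j)).filter (fun f => M j ∣ f - A),
            (lio f : ℝ)) / Real.sqrt ((Fintype.card K : ℝ) ^ (m j)) : ℝ) : ℂ) * Complex.I)) /
          (((Bx K (M j).natDegree).filter (fun A => IsCoprime A (M j))).card : ℂ)) atTop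
      (𝓝 (Complex.exp (-(θ ^ 2 / 2 : ℝ)))) := by
    intro θ
    rw [Metric.tendsto_atTop]
    intro δ hδ
    obtain ⟨κ, hκ, m₀, h⟩ := cf_red hcor K θ (δ / 2) (by positivity)
    obtain ⟨j₁, hj₁⟩ := exists_nat_ge (1 / κ)
    refine ⟨max j₁ m₀, fun j hj => ?_⟩
    rw [dist_eq_norm]
    have hj1 : (j₁ : ℝ) ≤ j := by exact_mod_cast (le_max_left _ _).trans hj
    refine lt_of_le_of_lt (h (n j) (m j) (M j) (hM j) (hMn j) (hm j)
      (((le_max_right _ _).trans hj).trans (hmj j)) ((hmn j).trans ?_)) (by linarith)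
    refine mul_le_mul_of_nonneg_right ?_ (Nat.cast_nonneg _)
    rw [div_le_iff₀ (by positivity)]
    rw [div_le_iff₀ hκ] at hj₁
    nlinarith
  -- nonempty, from n ≥ n₂
  have hnj : ∀ j, j ≤ n j := by
    intro j
    have h1 := hmj j
    have h2 := hm j
    omega
  have hne : ∀ j, n₂ ≤ j →
      ((Bx K (M j).natDegree).filter (fun A => IsCoprime A (M j))).Nonempty := by
    intro j hj
    rw [← Finset.card_pos]
    by_contra hcon'
    have h0 : ((Bx K (M j).natDegree).filter (fun A => IsCoprime A (M j))).card = 0 := by omega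
    have h1 := hlow (n j) (hj.trans (hnj j)) (M j) (hM j) (hMn j)
    have hcl0 := cls K (n j) (M j) (fun f => (lio f : ℝ)) 0 (hM j) (hMn j)
    simp only [pow_zero] at hcl0
    rw [Finset.sum_const, Finset.sum_const, nsmul_eq_mul, nsmul_eq_mul, mul_one, mul_one, h0,
      Nat.cast_zero, mul_zero] at hcl0
    rw [← hcl0] at h1
    have h2 : (0 : ℝ) < (Fintype.card K : ℝ) ^ ((n j : ℝ) - 1 / 2 * n j) := by positivity
    linarith
  have hlev := levy
    (fun j => (Bx K (M (j + n₂)).natDegree).filter (fun A => IsCoprime A (M (j + n₂))))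
    (fun j A => (∑ f ∈ (Mn K (n (j + n₂))).filter (fun f => M (j + n₂) ∣ f - A),
      (lio f : ℝ)) / Real.sqrt ((Fintype.card K : ℝ) ^ (m (j + n₂))))
    (fun j => hne _ (by omega)) (fun θ => (hcf θ).comp (tendsto_add_atTop_nat n₂)) t
  have h5 := (hlev.sub_const ((ProbabilityTheory.gaussianReal 0 1) (Set.Iic t)).toReal).abs
  rw [sub_self, abs_zero] at h5
  obtain ⟨j, hj⟩ := (h5.eventually (gt_mem_nhds hε)).exists
  have hb := hbad (j + n₂)
  have hsq : 0 < Real.sqrt ((Fintype.card K : ℝ) ^ (m (j + n₂))) :=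
    Real.sqrt_pos.mpr (by positivity)
  simp only [div_le_iff₀ hsq] at hj
  exact absurd hj (not_lt.mpr hb.le)

end Pool.Agent.H604.VM
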