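import Pool.Agent.H604.VM.Phl
import Pool.Agent.H985.Gc.Pow

/-!
# VM: the variance for the Möbius function (helper604)
-/

set_option autoImplicit false

namespace Pool.Agent.H604.VM

open Polynomial Finset
open scoped Classical
open Pool.Agent.H985.Chow (mob)
open Pool.Agent.H694.Typ (Mn mem_Mn card_Mn)
open Pool.Agent.H985.Cor (Bx mem_Bx card_Bx)
open Pool.Agent.H985.KP (PA)
open Pool.Agent.H985.KP.Cnt (finite_PA)

variable {K : Type} [Field K]

theorem cop_iff {M f : K[X]} (hM : M.Monic) (S : Finset K[X])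
    (hS : ∀ P, P ∈ S ↔ P.Monic ∧ Irreducible P ∧ P ∣ M) :
    IsCoprime f M ↔ ∀ P ∈ S, ¬ P ∣ f := by
  constructor
  · intro h P hP hPf
    have h1 := (hS P).1 hP
    exact h1.2.1.not_isUnit (h.isUnit_of_dvd' hPf h1.2.2)
  · intro h
    by_contra hcon
    have hg : ¬ IsUnit (gcd f M) := fun hu => hcon ((gcd_isUnit_iff f M).1 hu)
    have hg0 : gcd f M ≠ 0 := fun h0 => hM.ne_zero ((gcd_eq_zero_iff _ _).1 h0).2
    obtain ⟨P, hPm, hPi, hPg⟩ := exists_monic_irreducible_factor (gcd f M) hg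
    exact h P ((hS P).2 ⟨hPm, hPi, hPg.trans (gcd_dvd_right _ _)⟩) (hPg.trans (gcd_dvd_left _ _))

theorem prod_dvd_iff (T : Finset K[X]) (hT : ∀ P ∈ T, P.Monic ∧ Irreducible P) (f : K[X]) :
    ∏ P ∈ T, P ∣ f ↔ ∀ P ∈ T, P ∣ f := by
  constructor
  · intro h P hP
    exact (Finset.dvd_prod_of_mem _ hP).trans h
  · intro h
    refine Finset.prod_dvd_of_coprime (fun P hP Q hQ hne => ?_) h
    show IsCoprime P Q
    refine (hT P hP).2.coprime_iff_not_dvd.2 fun hd => hne ?_
    exact eq_of_monic_of_associated (hT P hP).1 (hT Q hQ).1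
      ((hT P hP).2.associated_of_dvd (hT Q hQ).2 hd)

/-- Inclusion and exclusion over the prime divisors of `M`. -/
theorem incl_excl {M : K[X]} (hM : M.Monic) (S : Finset K[X])
    (hS : ∀ P, P ∈ S ↔ P.Monic ∧ Irreducible P ∧ P ∣ M) (s : Finset K[X]) (g : K[X] → ℝ) :
    ∑ f ∈ s.filter (fun f => IsCoprime f M), g f =
      ∑ T ∈ S.powerset, (-1) ^ T.card * ∑ f ∈ s.filter (fun f => ∏ P ∈ T, P ∣ f), g f := by
  have h1 : ∀ f : K[X], (if IsCoprime f M then (1 : ℝ) else 0) =
      ∑ T ∈ S.powerset, (-1) ^ T.card * (if ∏ P ∈ T, P ∣ f then (1 : ℝ) else 0) := by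
    intro f
    have e1 : ∏ P ∈ S, (-(if P ∣ f then (1 : ℝ) else 0) + 1) =
        if IsCoprime f M then (1 : ℝ) else 0 := by
      by_cases hc : IsCoprime f M
      · rw [if_pos hc]
        refine Finset.prod_eq_one fun P hP => ?_
        rw [if_neg ((cop_iff hM S hS).1 hc P hP)]
        ring
      · rw [if_neg hc]
        rw [cop_iff hM S hS] at hc
        push Not at hc
        obtain ⟨P, hP, hPf⟩ := hc
        refine Finset.prod_eq_zero hP ?_
        rw [if_pos hPf]
        ring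
    rw [← e1, Finset.prod_add]
    refine Finset.sum_congr rfl fun T hT => ?_
    rw [Finset.prod_const_one, mul_one, Finset.prod_neg]
    congr 1
    rw [Finset.mem_powerset] at hT
    by_cases hd : ∏ P ∈ T, P ∣ f
    · rw [if_pos hd]
      refine Finset.prod_eq_one fun P hP => if_pos ?_
      exact (Finset.dvd_prod_of_mem _ hP).trans hd
    · rw [if_neg hd]
      rw [prod_dvd_iff T (fun P hP => ⟨((hS P).1 (hT hP)).1, ((hS P).1 (hT hP)).2.1⟩)] at hd
      push Not at hd
      obtain ⟨P, hP, hPf⟩ := hd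
      exact Finset.prod_eq_zero hP (if_neg hPf)
  rw [Finset.sum_filter]
  have h2 : ∀ f ∈ s, (if IsCoprime f M then g f else 0) =
      ∑ T ∈ S.powerset, (-1) ^ T.card * (if ∏ P ∈ T, P ∣ f then g f else 0) := by
    intro f _
    have : (if IsCoprime f M then g f else 0) = (if IsCoprime f M then (1 : ℝ) else 0) * g f := by
      split_ifs <;> simp
    rw [this, h1 f, Finset.sum_mul]
    refine Finset.sum_congr rfl fun T _ => ?_
    split_ifs <;> ring
  rw [Finset.sum_congr rfl h2, Finset.sum_comm]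
  refine Finset.sum_congr rfl fun T _ => ?_
  rw [Finset.sum_filter, Finset.mul_sum]

theorem mob_abs (f : K[X]) : |(mob f : ℝ)| ≤ 1 := by
  unfold mob
  split_ifs
  · rcases neg_one_pow_eq_or ℤ (Multiset.card (UniqueFactorizationMonoid.factors f)) with h | h <;>
      rw [h] <;> simp
  · simp

/-- The correlations of the Möbius function over the `f` prime to `M`, at shifts divisible by `M`. -/
theorem cor_mu (K : Type) [Field K] [Fintype K] [CharP K 2] :
    ∃ c : ℝ, 0 < c ∧ ∃ n₀ : ℕ, ∀ n : ℕ, n₀ ≤ n → ∀ M : K[X], M.Monic → M.natDegree ≤ n →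
      ∀ u v : K[X], u ≠ v → (M * u).natDegree < n → (M * v).natDegree < n →
      |∑ f ∈ (Mn K n).filter (fun f => IsCoprime f M),
        (mob (f + M * u) : ℝ) * (mob (f + M * v) : ℝ)| ≤
        (Fintype.card K : ℝ) ^ ((n : ℝ) - c * n) := by
  have hq1 : (2 : ℝ) ≤ Fintype.card K := by exact_mod_cast (Fintype.one_lt_card (α := K))
  have hq1' : (1 : ℝ) < Fintype.card K := by linarith
  have hq0 : (0 : ℝ) < Fintype.card K := by linarith
  obtain ⟨c, hc, n₁, h⟩ := Pool.Agent.H985.Gc.pow_sets K 2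
  obtain ⟨δ, hδdef⟩ : ∃ δ : ℝ, δ = min c 1 := ⟨_, rfl⟩
  have hδ0 : 0 < δ := by rw [hδdef]; exact lt_min hc one_pos
  have hδc : δ ≤ c := by rw [hδdef]; exact min_le_left _ _
  obtain ⟨η, hηdef⟩ : ∃ η : ℝ, η = (Fintype.card K : ℝ) ^ (δ / 4) := ⟨_, rfl⟩
  have hη : 1 < η := by
    rw [hηdef]
    exact Real.one_lt_rpow hq1' (by positivity)
  obtain ⟨A₀, hA₀, homega⟩ := Pool.Agent.H251.SP.BF.omega_bound K 2 (by norm_num) η hη
  obtain ⟨n₂, hn₂⟩ : ∃ n₂ : ℕ, ∀ n : ℕ, n₂ ≤ n → A₀ ≤ η ^ n := by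
    obtain ⟨n₂, h⟩ := pow_unbounded_of_one_lt A₀ hη
    exact ⟨n₂, fun n hn => h.le.trans (pow_le_pow_right₀ hη.le hn)⟩
  refine ⟨δ / 2, by positivity, max n₁ n₂, fun n hn M hM hMn u v huv hu hv => ?_⟩
  have hn0 : (0 : ℝ) ≤ n := Nat.cast_nonneg _
  have hfin : (PA M).Finite := finite_PA hM.ne_zero
  obtain ⟨S, hSdef⟩ : ∃ S, S = hfin.toFinset := ⟨_, rfl⟩
  have hS : ∀ P, P ∈ S ↔ P.Monic ∧ Irreducible P ∧ P ∣ M := by
    intro P
    rw [hSdef, Set.Finite.mem_toFinset]
    rfl
  rw [incl_excl hM S hS]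
  refine (Finset.abs_sum_le_sum_abs _ _).trans ?_
  have hT : ∀ T ∈ S.powerset, |(-1 : ℝ) ^ T.card * ∑ f ∈ (Mn K n).filter (fun f => ∏ P ∈ T, P ∣ f),
      (mob (f + M * u) : ℝ) * (mob (f + M * v) : ℝ)| ≤ (Fintype.card K : ℝ) ^ ((n : ℝ) - δ * n) := by
    intro T hT
    rw [Finset.mem_powerset] at hT
    rw [abs_mul, abs_pow, abs_neg, abs_one, one_pow, one_mul]
    have hD : (∏ P ∈ T, P).Monic := monic_prod_of_monic _ _ fun P hP => ((hS P).1 (hT hP)).1
    by_cases hDd : ((∏ P ∈ T, P).natDegree : ℝ) ≤ δ * n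
    · have hne : M * u ≠ M * v := fun h0 => huv (mul_left_cancel₀ hM.ne_zero h0)
      have h1 := h n ((le_max_left _ _).trans hn) {M * u, M * v} ∅ (∏ P ∈ T, P) 0
        ⟨M * u, by simp⟩ (by rw [Finset.card_pair hne]; simp) (by
          intro w hw
          rw [Finset.union_empty, Finset.mem_insert, Finset.mem_singleton] at hw
          rcases hw with rfl | rfl
          · exact hu
          · exact hv) hD (hDd.trans (mul_le_mul_of_nonneg_right hδc hn0))
      simp only [Finset.prod_pair hne, Finset.prod_empty, mul_one, sub_zero] at h1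
      refine h1.trans (Real.rpow_le_rpow_of_exponent_le hq1'.le ?_)
      have := mul_le_mul_of_nonneg_right hδc hn0
      linarith
    · push Not at hDd
      refine (Finset.abs_sum_le_sum_abs _ _).trans ?_
      have h2 : ∀ f ∈ (Mn K n).filter (fun f => ∏ P ∈ T, P ∣ f),
          |(mob (f + M * u) : ℝ) * (mob (f + M * v) : ℝ)| ≤ 1 := by
        intro f _
        rw [abs_mul]
        exact mul_le_one₀ (mob_abs _) (abs_nonneg _) (mob_abs _)
      refine (Finset.sum_le_sum h2).trans ?_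
      rw [Finset.sum_const, nsmul_eq_mul, mul_one]
      by_cases hDn : (∏ P ∈ T, P).natDegree ≤ n
      · have h3 : (((Mn K n).filter (fun f => ∏ P ∈ T, P ∣ f)).card : ℝ) ≤
            (Fintype.card K : ℝ) ^ ((n : ℝ) - (∏ P ∈ T, P).natDegree) := by
          rw [Pool.Agent.H694.Typ.card_dvd hD hDn, Nat.cast_pow, ← Real.rpow_natCast,
            Nat.cast_sub hDn]
        refine h3.trans (Real.rpow_le_rpow_of_exponent_le hq1'.le ?_)
        linarith
      · have h4 : (Mn K n).filter (fun f => ∏ P ∈ T, P ∣ f) = ∅ := by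
          refine Finset.filter_eq_empty_iff.2 fun f hf hd => hDn ?_
          rw [mem_Mn] at hf
          rw [← hf.2]
          exact natDegree_le_of_dvd hd hf.1.ne_zero
        rw [h4, Finset.card_empty, Nat.cast_zero]
        positivity
  refine (Finset.sum_le_sum hT).trans ?_
  rw [Finset.sum_const, Finset.card_powerset, nsmul_eq_mul]
  have hSc : S.card = (PA M).ncard := by
    rw [hSdef, Set.ncard_eq_toFinset_card _ hfin]
  have h5 := homega M hM.ne_zero n hMn
  have hηn : η ^ n = (Fintype.card K : ℝ) ^ (δ / 4 * n) := by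
    rw [hηdef, ← Real.rpow_natCast, ← Real.rpow_mul hq0.le]
  have h6 : (((2 : ℕ) ^ S.card : ℕ) : ℝ) ≤ (Fintype.card K : ℝ) ^ (δ / 2 * n) := by
    push_cast
    rw [hSc]
    refine h5.trans ?_
    calc A₀ * η ^ n ≤ η ^ n * η ^ n :=
          mul_le_mul_of_nonneg_right (hn₂ n ((le_max_right _ _).trans hn)) (by positivity)
      _ = (Fintype.card K : ℝ) ^ (δ / 2 * n) := by
          rw [hηn, ← Real.rpow_add hq0]
          congr 1
          ring
  calc (((2 : ℕ) ^ S.card : ℕ) : ℝ) * (Fintype.card K : ℝ) ^ ((n : ℝ) - δ * n)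
      ≤ (Fintype.card K : ℝ) ^ (δ / 2 * n) * (Fintype.card K : ℝ) ^ ((n : ℝ) - δ * n) :=
        mul_le_mul_of_nonneg_right h6 (by positivity)
    _ = (Fintype.card K : ℝ) ^ ((n : ℝ) - δ / 2 * n) := by
        rw [← Real.rpow_add hq0]
        congr 1
        ring

theorem mob_sq (f : K[X]) : (mob f : ℝ) ^ 2 = if Squarefree f then 1 else 0 := by
  unfold mob
  split_ifs
  · rcases neg_one_pow_eq_or ℤ (Multiset.card (UniqueFactorizationMonoid.factors f)) with h | h <;>
      rw [h] <;> simp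
  · simp

/-- A shift by a multiple of `M` of small degree. -/
theorem shift_sum {K : Type} [Field K] [Fintype K] {n : ℕ} {M u : K[X]} (hu : (M * u).degree < n)
    (g : K[X] → ℝ) :
    ∑ f ∈ (Mn K n).filter (fun f => IsCoprime f M), g (f + M * u) =
      ∑ f ∈ (Mn K n).filter (fun f => IsCoprime f M), g f := by
  have key : ∀ w : K[X], (M * w).degree < n → ∀ f ∈ (Mn K n).filter (fun f => IsCoprime f M),
      f + M * w ∈ (Mn K n).filter (fun f => IsCoprime f M) := by
    intro w hw f hf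
    rw [Finset.mem_filter, mem_Mn] at hf ⊢
    have h1 : (M * w).degree < f.degree := by
      rw [degree_eq_natDegree hf.1.1.ne_zero, hf.1.2]
      exact hw
    refine ⟨⟨hf.1.1.add_of_left h1, ?_⟩, (IsCoprime.add_mul_left_left_iff).2 hf.2⟩
    rw [natDegree_add_eq_left_of_degree_lt h1, hf.1.2]
  refine Finset.sum_bij' (fun f _ => f + M * u) (fun f _ => f + M * (-u)) (key u hu)
    (key (-u) (by rw [mul_neg, degree_neg]; exact hu)) ?_ ?_ ?_
  · intro f _
    ring
  · intro f _
    ring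
  · intro f _
    rfl

/-- The variance of the Möbius function over the reduced classes of a single modulus. -/
theorem var_mu (hcls : S_cls) (K : Type) [Field K] [Fintype K] [CharP K 2] :
    ∃ c : ℝ, 0 < c ∧ ∃ n₀ : ℕ, ∀ n : ℕ, n₀ ≤ n → ∀ M : K[X], M.Monic →
      (1 - c) * n ≤ M.natDegree → M.natDegree ≤ n →
      |∑ A ∈ (Bx K M.natDegree).filter (fun A => IsCoprime A M),
          (∑ f ∈ (Mn K n).filter (fun f => M ∣ f - A), (mob f : ℝ)) ^ 2 -
        ((((Mn K n).filter (fun f => IsCoprime f M)).filter (fun f => Squarefree f)).card : ℝ)| ≤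
      (Fintype.card K : ℝ) ^ ((n : ℝ) - c * n) := by
  have hq1 : (2 : ℝ) ≤ Fintype.card K := by exact_mod_cast (Fintype.one_lt_card (α := K))
  have hq1' : (1 : ℝ) < Fintype.card K := by linarith
  have hq0 : (0 : ℝ) < Fintype.card K := by linarith
  obtain ⟨c, hc, n₁, hcor⟩ := cor_mu K
  refine ⟨c / 2, by positivity, n₁, fun n hn M hM hMl hMn => ?_⟩
  have hn0 : (0 : ℝ) ≤ n := Nat.cast_nonneg _
  obtain ⟨m, hm⟩ : ∃ m, m = n - M.natDegree := ⟨_, rfl⟩
  have hmd : (m : ℝ) + M.natDegree = n := by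
    rw [hm]
    have : n - M.natDegree + M.natDegree = n := Nat.sub_add_cancel hMn
    exact_mod_cast this
  have hmκ : (m : ℝ) ≤ c / 2 * n := by nlinarith
  have h1 := hcls K n M (fun f => (mob f : ℝ)) 2 hM hMn
  rw [← hm] at h1
  set T : ℝ := ∑ A ∈ (Bx K M.natDegree).filter (fun A => IsCoprime A M),
    (∑ f ∈ (Mn K n).filter (fun f => M ∣ f - A), (mob f : ℝ)) ^ 2 with hT
  obtain ⟨Q, hQ⟩ : ∃ Q : ℝ, Q = ((((Mn K n).filter (fun f => IsCoprime f M)).filter
    (fun f => Squarefree f)).card : ℝ) := ⟨_, rfl⟩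
  have hQ' : ∑ f ∈ (Mn K n).filter (fun f => IsCoprime f M), (mob f : ℝ) ^ 2 = Q := by
    rw [hQ, Finset.card_filter, Nat.cast_sum]
    refine Finset.sum_congr rfl fun f _ => ?_
    rw [mob_sq]
    split_ifs <;> simp
  rw [← hQ]
  have hdeg : ∀ u ∈ Bx K m, (M * u).degree < n := by
    intro u hu
    rw [mem_Bx] at hu
    rw [degree_mul, degree_eq_natDegree hM.ne_zero]
    by_cases hu0 : u = 0
    · rw [hu0, degree_zero, WithBot.add_bot]
      exact WithBot.bot_lt_coe _
    · rw [degree_eq_natDegree hu0] at hu ⊢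
      have h7 : u.natDegree < m := by exact_mod_cast hu
      have h6 : M.natDegree + u.natDegree < n := by omega
      exact_mod_cast h6
  have h2 : ∑ f ∈ (Mn K n).filter (fun f => IsCoprime f M),
      (∑ u ∈ Bx K m, (mob (f + M * u) : ℝ)) ^ 2 =
      ∑ u ∈ Bx K m, ∑ v ∈ Bx K m, ∑ f ∈ (Mn K n).filter (fun f => IsCoprime f M),
        (mob (f + M * u) : ℝ) * (mob (f + M * v) : ℝ) := by
    have e : ∀ f : K[X], (∑ u ∈ Bx K m, (mob (f + M * u) : ℝ)) ^ 2 =
        ∑ u ∈ Bx K m, ∑ v ∈ Bx K m, (mob (f + M * u) : ℝ) * (mob (f + M * v) : ℝ) := fun f => by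
      rw [sq, Finset.sum_mul_sum]
    rw [Finset.sum_congr rfl fun f _ => e f, Finset.sum_comm]
    refine Finset.sum_congr rfl fun u _ => ?_
    rw [Finset.sum_comm]
  rw [h2] at h1
  have hcard : ((Bx K m).card : ℝ) = (Fintype.card K : ℝ) ^ m := by
    rw [card_Bx, Nat.cast_pow]
  have h3 : ∑ u ∈ Bx K m, ∑ v ∈ Bx K m, (if v = u then Q else 0) = (Fintype.card K : ℝ) ^ m * Q := by
    have : ∀ u ∈ Bx K m, ∑ v ∈ Bx K m, (if v = u then Q else 0) = Q := fun u hu => by
      rw [Finset.sum_ite_eq' (Bx K m) u (fun _ => Q), if_pos hu]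
    rw [Finset.sum_congr rfl this, Finset.sum_const, nsmul_eq_mul, hcard]
  have hdeg' : ∀ u ∈ Bx K m, (M * u).natDegree < n ∨ n = 0 := by
    intro u hu
    by_cases h0 : M * u = 0
    · rw [h0, natDegree_zero]
      omega
    · left
      have := hdeg u hu
      rw [degree_eq_natDegree h0] at this
      exact_mod_cast this
  have h4 : ∀ u ∈ Bx K m, ∀ v ∈ Bx K m,
      |∑ f ∈ (Mn K n).filter (fun f => IsCoprime f M),
        (mob (f + M * u) : ℝ) * (mob (f + M * v) : ℝ) - (if v = u then Q else 0)| ≤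
        (Fintype.card K : ℝ) ^ ((n : ℝ) - c * n) := by
    intro u hu v hv
    by_cases huv : v = u
    · rw [if_pos huv, huv]
      have h5 := shift_sum (n := n) (M := M) (hdeg u hu) (fun f => (mob f : ℝ) ^ 2)
      rw [hQ'] at h5
      have h6 : ∑ f ∈ (Mn K n).filter (fun f => IsCoprime f M),
          (mob (f + M * u) : ℝ) * (mob (f + M * u) : ℝ) = Q := by
        rw [← h5]
        exact Finset.sum_congr rfl fun f _ => (sq _).symm
      rw [h6, sub_self, abs_zero]
      positivity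
    · rw [if_neg huv, sub_zero]
      rcases Nat.eq_zero_or_pos n with hn00 | hn00
      · exfalso
        apply huv
        have hm0 : m = 0 := by omega
        rw [hm0] at hu hv
        rw [mem_Bx] at hu hv
        have e1 : u = 0 := by
          rw [← degree_eq_bot]
          exact Nat.WithBot.lt_zero_iff.1 hu
        have e2 : v = 0 := by
          rw [← degree_eq_bot]
          exact Nat.WithBot.lt_zero_iff.1 hv
        rw [e1, e2]
      · exact hcor n hn M hM hMn u v (Ne.symm huv)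
          ((hdeg' u hu).resolve_right (by omega)) ((hdeg' v hv).resolve_right (by omega))
  have h5 : |(Fintype.card K : ℝ) ^ m * T - (Fintype.card K : ℝ) ^ m * Q| ≤
      (Fintype.card K : ℝ) ^ m * ((Fintype.card K : ℝ) ^ m *
        (Fintype.card K : ℝ) ^ ((n : ℝ) - c * n)) := by
    rw [h1, ← h3, ← Finset.sum_sub_distrib]
    refine (Finset.abs_sum_le_sum_abs _ _).trans ?_
    refine (Finset.sum_le_sum fun u hu => ?_).trans
      (le_of_eq (by rw [Finset.sum_const, nsmul_eq_mul, hcard]))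
    rw [← Finset.sum_sub_distrib]
    refine (Finset.abs_sum_le_sum_abs _ _).trans ?_
    exact (Finset.sum_le_sum fun v hv => h4 u hu v hv).trans
      (le_of_eq (by rw [Finset.sum_const, nsmul_eq_mul, hcard]))
  have hqm : (0 : ℝ) < (Fintype.card K : ℝ) ^ m := by positivity
  rw [← mul_sub, abs_mul, abs_of_pos hqm] at h5
  refine (le_of_mul_le_mul_left h5 hqm).trans ?_
  rw [← Real.rpow_natCast, ← Real.rpow_add hq0]
  refine Real.rpow_le_rpow_of_exponent_le hq1'.le ?_
  linarith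

end Pool.Agent.H604.VM
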