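import Pool.Agent.H604.VM.Stm
import Pool.Agent.H251.SP.Bf

/-!
# VM: a lower bound for Euler's function, and the moments (helper604)
-/

set_option autoImplicit false

namespace Pool.Agent.H604.VM

open Polynomial Finset
open scoped Classical
open Pool.Agent.H524.Cw (lio)
open Pool.Agent.H694.Typ (Mn mem_Mn)
open Pool.Agent.H985.Cor (Bx mem_Bx card_Bx)
open Pool.Agent.H985.KP (PA)
open Pool.Agent.H985.KP.Cnt (finite_PA)
open Pool.Agent.H604.OD (phi)

theorem phi_low (K : Type) [Field K] [Fintype K] (η : ℝ) (hη : 1 < η) :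
    ∃ A : ℝ, 1 ≤ A ∧ ∀ (M : K[X]) (n : ℕ), M.Monic → M.natDegree ≤ n →
      (Fintype.card K : ℝ) ^ M.natDegree ≤ A * η ^ n * phi M := by
  obtain ⟨A, hA, h⟩ := Pool.Agent.H251.SP.BF.omega_bound K 2 (by norm_num) η hη
  refine ⟨A, hA, fun M n hM hn => ?_⟩
  have hq1 : (2 : ℝ) ≤ Fintype.card K := by exact_mod_cast (Fintype.one_lt_card (α := K))
  have hfin : (PA M).Finite := finite_PA hM.ne_zero
  have h1 := h M hM.ne_zero n hn
  have h2 : ((1 : ℝ) / 2) ^ (PA M).ncard ≤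
      ∏ᶠ P ∈ {P : K[X] | P.Monic ∧ Irreducible P ∧ P ∣ M},
        (1 - 1 / (Fintype.card K : ℝ) ^ P.natDegree) := by
    have e : ∏ᶠ P ∈ {P : K[X] | P.Monic ∧ Irreducible P ∧ P ∣ M},
        (1 - 1 / (Fintype.card K : ℝ) ^ P.natDegree) =
        ∏ P ∈ hfin.toFinset, (1 - 1 / (Fintype.card K : ℝ) ^ P.natDegree) :=
      finprod_mem_eq_finite_toFinset_prod _ hfin
    rw [e, Set.ncard_eq_toFinset_card _ hfin, ← Finset.prod_const]
    refine Finset.prod_le_prod (fun _ _ => by norm_num) fun P hP => ?_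
    rw [Set.Finite.mem_toFinset] at hP
    have hPd : 1 ≤ P.natDegree := hP.2.1.natDegree_pos
    have h3 : (2 : ℝ) ≤ (Fintype.card K : ℝ) ^ P.natDegree :=
      calc (2 : ℝ) ≤ (Fintype.card K : ℝ) ^ 1 := by rw [pow_one]; exact hq1
        _ ≤ _ := pow_le_pow_right₀ (by linarith) hPd
    have h4 : 1 / (Fintype.card K : ℝ) ^ P.natDegree ≤ 1 / 2 :=
      one_div_le_one_div_of_le (by norm_num) h3
    linarith
  unfold phi
  have hqd : (0 : ℝ) < (Fintype.card K : ℝ) ^ M.natDegree := by positivity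
  have h5 : 1 ≤ A * η ^ n * ((1 : ℝ) / 2) ^ (PA M).ncard := by
    have h6 : (2 : ℝ) ^ (PA M).ncard * ((1 : ℝ) / 2) ^ (PA M).ncard = 1 := by
      rw [← mul_pow]; norm_num
    calc (1 : ℝ) = (2 : ℝ) ^ (PA M).ncard * ((1 : ℝ) / 2) ^ (PA M).ncard := h6.symm
      _ ≤ _ := mul_le_mul_of_nonneg_right h1 (by positivity)
  have h7 : 0 ≤ A * η ^ n := by positivity
  calc (Fintype.card K : ℝ) ^ M.natDegree = (Fintype.card K : ℝ) ^ M.natDegree * 1 := by ring
    _ ≤ (Fintype.card K : ℝ) ^ M.natDegree * (A * η ^ n * ((1 : ℝ) / 2) ^ (PA M).ncard) :=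
        mul_le_mul_of_nonneg_left h5 hqd.le
    _ ≤ (Fintype.card K : ℝ) ^ M.natDegree * (A * η ^ n * _) :=
        mul_le_mul_of_nonneg_left (mul_le_mul_of_nonneg_left h2 h7) hqd.le
    _ = _ := by ring

end Pool.Agent.H604.VM
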