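import Pool.Agent.H985.Gc.Base
import Pool.Agent.H604.OD.Phi

/-!
# Moments of the Liouville sums in the residue classes of a single modulus over `F_q[X]`, `q` even
(helper604): statements of the parts
-/

set_option autoImplicit false

namespace Pool.Agent.H604.VM

open Polynomial Finset
open scoped Classical
open Pool.Agent.H524.Cw (lio)
open Pool.Agent.H694.Typ (Mn)
open Pool.Agent.H985.Cor (Bx)

/-- The `j`-th moment of the simple random walk after `H` steps. -/
noncomputable def wm (H j : ℕ) : ℝ :=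
  (∑ i ∈ range (H + 1), (H.choose i : ℝ) * ((H : ℝ) - 2 * i) ^ j) / 2 ^ H

/-- **Task WALK.**  The powers of a sum of signs as a combination of products of distinct signs. -/
def S_walk : Prop :=
  ∀ (α : Type) (U : Finset α) (j : ℕ), ∃ N : Finset α → ℝ, (∀ A, 0 ≤ N A) ∧
    (∀ A, N A ≠ 0 → A ⊆ U ∧ A.card ≤ j) ∧ N ∅ = wm U.card j ∧
    ∀ x : α → ℝ, (∀ u ∈ U, x u ^ 2 = 1) →
      (∑ u ∈ U, x u) ^ j = ∑ A ∈ U.powerset, N A * ∏ u ∈ A, x u

/-- **Task COR.**  The correlations of the Liouville function over the `f` prime to `M`, at shifts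
divisible by `M`. -/
def S_cor : Prop :=
  ∀ (K : Type) [Field K] [Fintype K] [CharP K 2] (J : ℕ),
    ∃ c : ℝ, 0 < c ∧ ∃ n₀ : ℕ, ∀ n : ℕ, n₀ ≤ n →
    ∀ M : K[X], M.Monic → M.natDegree ≤ n → ∀ A : Finset K[X], A.Nonempty → A.card ≤ J →
      (∀ u ∈ A, u.degree < ((n - M.natDegree : ℕ) : WithBot ℕ)) →
      |∑ f ∈ (Mn K n).filter (fun f => IsCoprime f M), ∏ u ∈ A, (lio (f + M * u) : ℝ)| ≤
        (Fintype.card K : ℝ) ^ ((n : ℝ) - c * n)

/-- **Task CLS.**  The sums over the residue classes. -/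
def S_cls : Prop :=
  ∀ (K : Type) [Field K] [Fintype K] (n : ℕ) (M : K[X]) (a : K[X] → ℝ) (j : ℕ), M.Monic →
    M.natDegree ≤ n →
    (Fintype.card K : ℝ) ^ (n - M.natDegree) *
      ∑ A ∈ (Bx K M.natDegree).filter (fun A => IsCoprime A M),
        (∑ f ∈ (Mn K n).filter (fun f => M ∣ f - A), a f) ^ j =
    ∑ f ∈ (Mn K n).filter (fun f => IsCoprime f M),
      (∑ u ∈ Bx K (n - M.natDegree), a (f + M * u)) ^ j

end Pool.Agent.H604.VM
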