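import Pool.Agent.H604.VM.Stm

/-!
# Powers of a sum of signs; moments of the simple random walk (task WALK; helper864 for helper604)
-/

set_option autoImplicit false

namespace Pool.Agent.H604.VM

open Polynomial Finset
open scoped Classical

namespace Walk

variable {α : Type}

/-- the set with the membership of `u` changed -/
noncomputable def fl (u : α) (A : Finset α) : Finset α := if u ∈ A then A.erase u else insert u A

theorem fl_fl (u : α) (A : Finset α) : fl u (fl u A) = A := by
  unfold fl
  by_cases h : u ∈ A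
  · rw [if_pos h, if_neg (notMem_erase u A), insert_erase h]
  · rw [if_neg h, if_pos (mem_insert_self u A), erase_insert h]

theorem fl_sub {U : Finset α} {u : α} (hu : u ∈ U) {A : Finset α} (hA : A ⊆ U) : fl u A ⊆ U := by
  unfold fl
  split_ifs
  · exact (erase_subset _ _).trans hA
  · exact insert_subset hu hA

theorem card_fl (u : α) (A : Finset α) : A.card ≤ (fl u A).card + 1 := by
  unfold fl
  split_ifs with h
  · rw [card_erase_add_one h]
  · rw [card_insert_of_notMem h]
    omega

theorem prod_fl {u : α} (A : Finset α) {x : α → ℝ} (hx : x u ^ 2 = 1) :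
    x u * ∏ v ∈ A, x v = ∏ v ∈ fl u A, x v := by
  unfold fl
  split_ifs with h
  · rw [← mul_prod_erase A x h, ← mul_assoc, ← sq, hx, one_mul]
  · rw [prod_insert h]

theorem main (U : Finset α) (j : ℕ) : ∃ N : Finset α → ℝ, (∀ A, 0 ≤ N A) ∧
    (∀ A, N A ≠ 0 → A ⊆ U ∧ A.card ≤ j) ∧
    ∀ x : α → ℝ, (∀ u ∈ U, x u ^ 2 = 1) →
      (∑ u ∈ U, x u) ^ j = ∑ A ∈ U.powerset, N A * ∏ u ∈ A, x u := by
  induction j with
  | zero =>
    refine ⟨fun A => if A = ∅ then 1 else 0, fun A => ?_, fun A hA => ?_, fun x _ => ?_⟩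
    · show (0 : ℝ) ≤ if A = ∅ then 1 else 0
      split_ifs <;> norm_num
    · have h : A = ∅ := by
        by_contra h
        exact hA (if_neg h)
      rw [h]
      exact ⟨empty_subset _, by simp⟩
    · rw [pow_zero, sum_eq_single ∅]
      · simp
      · intro A _ hA
        show (if A = ∅ then (1 : ℝ) else 0) * _ = 0
        rw [if_neg hA, zero_mul]
      · intro h
        exact absurd (empty_mem_powerset U) h
  | succ j ih =>
    obtain ⟨N, h0, h1, h2⟩ := ih
    refine ⟨fun A => if A ⊆ U then ∑ u ∈ U, N (fl u A) else 0, fun A => ?_, fun A hA => ?_,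
      fun x hx => ?_⟩
    · show (0 : ℝ) ≤ if A ⊆ U then ∑ u ∈ U, N (fl u A) else 0
      split_ifs
      · exact sum_nonneg fun u _ => h0 _
      · exact le_rfl
    · have hAU : A ⊆ U := by
        by_contra h
        exact hA (if_neg h)
      have hs : ∑ u ∈ U, N (fl u A) ≠ 0 := by
        intro h
        exact hA ((if_pos hAU).trans h)
      obtain ⟨u, _, hu⟩ := exists_ne_zero_of_sum_ne_zero hs
      refine ⟨hAU, ?_⟩
      have h3 := (h1 _ hu).2
      have h4 := card_fl u A
      omega
    · rw [pow_succ, h2 x hx, sum_mul_sum, sum_comm]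
      have e1 : ∀ u ∈ U, ∑ A ∈ U.powerset, N A * (∏ v ∈ A, x v) * x u =
          ∑ A ∈ U.powerset, N (fl u A) * ∏ v ∈ A, x v := by
        intro u hu
        have e2 : ∑ A ∈ U.powerset, N A * (∏ v ∈ A, x v) * x u =
            ∑ A ∈ U.powerset, N A * ∏ v ∈ fl u A, x v := by
          refine sum_congr rfl fun A _ => ?_
          rw [← prod_fl A (hx u hu)]
          ring
        rw [e2]
        refine sum_nbij' (fl u) (fl u) ?_ ?_ ?_ ?_ ?_
        · intro A hA
          exact mem_powerset.mpr (fl_sub hu (mem_powerset.mp hA))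
        · intro A hA
          exact mem_powerset.mpr (fl_sub hu (mem_powerset.mp hA))
        · intro A _
          exact fl_fl u A
        · intro A _
          exact fl_fl u A
        · intro A _
          rw [fl_fl]
      rw [sum_congr rfl e1, sum_comm]
      refine sum_congr rfl fun A hA => ?_
      show _ = (if A ⊆ U then ∑ u ∈ U, N (fl u A) else 0) * _
      rw [if_pos (mem_powerset.mp hA), sum_mul]

/-- the sign vector of a set -/
noncomputable def sx (S : Finset α) (u : α) : ℝ := if u ∈ S then -1 else 1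

theorem sx_sq (S : Finset α) (u : α) : sx S u ^ 2 = 1 := by
  unfold sx
  split_ifs <;> norm_num

theorem prod_sx (A S : Finset α) : ∏ u ∈ A, sx S u = ∏ u ∈ S, sx A u := by
  unfold sx
  rw [prod_ite_mem, prod_ite_mem, inter_comm]

theorem sum_sx {U S : Finset α} (hS : S ⊆ U) : ∑ u ∈ U, sx S u = (U.card : ℝ) - 2 * S.card := by
  have h : ∀ u ∈ U, sx S u = 1 - 2 * (if u ∈ S then 1 else 0) := by
    intro u _
    unfold sx
    split_ifs <;> norm_num
  rw [sum_congr rfl h, sum_sub_distrib, ← mul_sum, sum_ite_mem, inter_eq_right.mpr hS]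
  simp

theorem avg {U A : Finset α} (hA : A ⊆ U) : ∑ S ∈ U.powerset, ∏ u ∈ A, sx S u =
    if A = ∅ then (2 : ℝ) ^ U.card else 0 := by
  have h1 : ∑ S ∈ U.powerset, ∏ u ∈ A, sx S u = ∏ u ∈ U, (sx A u + 1) := by
    rw [prod_add]
    refine sum_congr rfl fun S _ => ?_
    rw [prod_sx]
    simp
  rw [h1]
  split_ifs with h
  · rw [h]
    have h2 : ∀ u ∈ U, sx (∅ : Finset α) u + 1 = 2 := by
      intro u _
      unfold sx
      rw [if_neg (notMem_empty u)]
      norm_num
    rw [prod_congr rfl h2, prod_const]
  · obtain ⟨a, ha⟩ := nonempty_iff_ne_empty.mpr h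
    refine prod_eq_zero (hA ha) ?_
    unfold sx
    rw [if_pos ha]
    norm_num

theorem total (U : Finset α) (j : ℕ) :
    ∑ S ∈ U.powerset, (∑ u ∈ U, sx S u) ^ j = 2 ^ U.card * wm U.card j := by
  have h1 : ∑ S ∈ U.powerset, (∑ u ∈ U, sx S u) ^ j =
      ∑ S ∈ U.powerset, ((U.card : ℝ) - 2 * (S.card : ℕ)) ^ j := by
    refine sum_congr rfl fun S hS => ?_
    rw [sum_sx (mem_powerset.mp hS)]
  rw [h1, sum_powerset_apply_card (fun i : ℕ => ((U.card : ℝ) - 2 * (i : ℕ)) ^ j)]
  unfold wm
  rw [mul_div_cancel₀ _ (by positivity)]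
  refine sum_congr rfl fun i _ => ?_
  rw [nsmul_eq_mul]

end Walk

open Walk in
/-- **Task WALK.** -/
theorem walk : S_walk := by
  intro α U j
  obtain ⟨N, h0, h1, h2⟩ := Walk.main U j
  refine ⟨N, h0, h1, ?_, h2⟩
  have e1 := total U j
  have e2 : ∑ S ∈ U.powerset, (∑ u ∈ U, sx S u) ^ j = 2 ^ U.card * N ∅ := by
    calc ∑ S ∈ U.powerset, (∑ u ∈ U, sx S u) ^ j
        = ∑ S ∈ U.powerset, ∑ A ∈ U.powerset, N A * ∏ u ∈ A, sx S u :=
          sum_congr rfl fun S _ => h2 (sx S) fun u _ => sx_sq S u
      _ = ∑ A ∈ U.powerset, N A * ∑ S ∈ U.powerset, ∏ u ∈ A, sx S u := by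
          rw [sum_comm]
          refine sum_congr rfl fun A _ => ?_
          rw [mul_sum]
      _ = ∑ A ∈ U.powerset, N A * (if A = ∅ then (2 : ℝ) ^ U.card else 0) :=
          sum_congr rfl fun A hA => by rw [avg (mem_powerset.mp hA)]
      _ = 2 ^ U.card * N ∅ := by
          rw [sum_eq_single ∅]
          · rw [if_pos rfl]
            ring
          · intro A _ hA
            rw [if_neg hA, mul_zero]
          · intro h
            exact absurd (empty_mem_powerset U) h
  rw [e2] at e1
  exact mul_left_cancel₀ (by positivity) e1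

open Walk in
/-- the variance of the walk -/
theorem wm_two (H : ℕ) : wm H 2 = H := by
  have e1 := total (range H) 2
  rw [card_range] at e1
  have e2 : ∑ S ∈ (range H).powerset, (∑ u ∈ range H, sx S u) ^ 2 = 2 ^ H * (H : ℝ) := by
    calc ∑ S ∈ (range H).powerset, (∑ u ∈ range H, sx S u) ^ 2
        = ∑ S ∈ (range H).powerset, ∑ u ∈ range H, ∑ v ∈ range H, sx S u * sx S v :=
          sum_congr rfl fun S _ => by rw [sq, sum_mul_sum]
      _ = ∑ u ∈ range H, ∑ v ∈ range H, ∑ S ∈ (range H).powerset, sx S u * sx S v := by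
          rw [sum_comm]
          refine sum_congr rfl fun u _ => ?_
          rw [sum_comm]
      _ = ∑ u ∈ range H, ∑ v ∈ range H, (if u = v then (2 : ℝ) ^ H else 0) := by
          refine sum_congr rfl fun u hu => sum_congr rfl fun v hv => ?_
          split_ifs with h
          · subst h
            have h3 : ∀ S ∈ (range H).powerset, sx S u * sx S u = 1 := by
              intro S _
              rw [← sq, sx_sq]
            rw [sum_congr rfl h3, sum_const, card_powerset, card_range]
            simp
          · have h4 := avg (U := range H) (A := {u, v}) (by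
              intro w hw
              rw [mem_insert, mem_singleton] at hw
              rcases hw with rfl | rfl <;> assumption)
            rw [if_neg (by simp)] at h4
            rw [← h4]
            refine sum_congr rfl fun S _ => ?_
            rw [prod_pair h]
      _ = ∑ u ∈ range H, (2 : ℝ) ^ H := by
          refine sum_congr rfl fun u hu => ?_
          rw [sum_ite_eq, if_pos hu]
      _ = 2 ^ H * (H : ℝ) := by
          rw [sum_const, card_range, nsmul_eq_mul]
          ring
  rw [e2] at e1
  exact (mul_left_cancel₀ (by positivity) e1).symm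

end Pool.Agent.H604.VM
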